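import Pool.Agent.P.MP_bdc337_an.Quad

set_option autoImplicit false

open Finset

namespace Pool.Agent.P.MP_bdc337_an

/-- up probability -/
noncomputable def Au (a : ℝ) (k : ℕ) : ℝ := (k + 1 - a) / (2 * k + 1)

/-- down probability -/
noncomputable def Cd (a : ℝ) (k : ℕ) : ℝ := (k + a) / (2 * k + 1)

/-- reversible weight -/
noncomputable def pw (a : ℝ) : ℕ → ℝ
  | 0 => 1
  | k + 1 => pw a k * Au a k / Cd a (k + 1)

/-- transition operator -/
noncomputable def Tr (a : ℝ) (f : ℕ → ℂ) (k : ℕ) : ℂ :=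
  (Au a k : ℂ) * f (k + 1) + (Cd a k : ℂ) * f (k - 1)

variable {a : ℝ}

lemma Au_add_Cd (a : ℝ) (k : ℕ) : Au a k + Cd a k = 1 := by
  unfold Au Cd
  field_simp
  ring

lemma Au_pos (h1 : a ≤ 1 / 3) (k : ℕ) : 0 < Au a k := by
  unfold Au
  have : (0 : ℝ) ≤ k := Nat.cast_nonneg k
  apply div_pos <;> linarith

lemma Cd_pos (h0 : 0 < a) (k : ℕ) : 0 < Cd a k := by
  unfold Cd
  positivity

lemma pw_pos (h0 : 0 < a) (h1 : a ≤ 1 / 3) (k : ℕ) : 0 < pw a k := by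
  induction k with
  | zero => simp [pw]
  | succ k ih =>
    unfold pw
    have := Au_pos h1 k
    have := Cd_pos h0 (k + 1)
    positivity

lemma pw_bal (h0 : 0 < a) (k : ℕ) : pw a (k + 1) * Cd a (k + 1) = pw a k * Au a k := by
  have := Cd_pos h0 (k + 1)
  rw [pw]
  field_simp

lemma Au_zero (a : ℝ) : Au a 0 = 1 - a := by simp [Au]

lemma Cd_zero (a : ℝ) : Cd a 0 = a := by simp [Cd]

lemma pw_zero (a : ℝ) : pw a 0 = 1 := rfl

lemma stat_sum (h0 : 0 < a) (g : ℕ → ℝ) (n : ℕ) :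
    ∑ k ∈ range (n + 1), pw a k * (Au a k * g (k + 1) + Cd a k * g (k - 1) - g k)
      = pw a n * Au a n * (g (n + 1) - g n) := by
  induction n with
  | zero =>
    simp only [zero_add, range_one, sum_singleton, pw_zero, Au_zero, Cd_zero, Nat.zero_sub]
    ring
  | succ n ih =>
    rw [Finset.sum_range_succ, ih]
    have h1 := pw_bal h0 n
    have h2 := Au_add_Cd a (n + 1)
    simp only [Nat.add_sub_cancel]
    linear_combination (g n - g (n + 1)) * h1 + (pw a (n + 1) * g (n + 1)) * h2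

lemma sym_sum (h0 : 0 < a) (f g : ℕ → ℂ) (n : ℕ) :
    ∑ k ∈ range (n + 1), (pw a k : ℂ) * (Tr a f k * g k - f k * Tr a g k)
      = (pw a n : ℂ) * Au a n * (f (n + 1) * g n - f n * g (n + 1)) := by
  induction n with
  | zero =>
    simp only [zero_add, range_one, sum_singleton, Tr, Nat.zero_sub]
    ring
  | succ n ih =>
    rw [Finset.sum_range_succ, ih]
    have h1 : (pw a (n + 1) : ℂ) * Cd a (n + 1) = pw a n * Au a n := by
      exact_mod_cast pw_bal h0 n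
    simp only [Tr, Nat.add_sub_cancel]
    linear_combination (f n * g (n + 1) - f (n + 1) * g n) * h1

lemma normsq_Tr (a : ℝ) (f : ℕ → ℂ) (k : ℕ) :
    ‖Tr a f k‖ ^ 2 = Au a k * ‖f (k + 1)‖ ^ 2 + Cd a k * ‖f (k - 1)‖ ^ 2
      - Au a k * Cd a k * ‖f (k + 1) - f (k - 1)‖ ^ 2 := by
  have h := Au_add_Cd a k
  have hc : Cd a k = 1 - Au a k := by linarith
  unfold Tr
  rw [hc]
  simp only [Complex.sq_norm, Complex.normSq_apply, Complex.add_re, Complex.add_im,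
    Complex.mul_re, Complex.mul_im, Complex.sub_re, Complex.sub_im, Complex.ofReal_re,
    Complex.ofReal_im]
  ring

lemma defi_eq (h0 : 0 < a) (f : ℕ → ℂ) {N : ℕ} (h1 : f N = 0) (h2 : f (N + 1) = 0) :
    ∑ k ∈ range (N + 1), pw a k * (‖f k‖ ^ 2 - ‖Tr a f k‖ ^ 2)
      = ∑ k ∈ range (N + 1), pw a k * Au a k * Cd a k * ‖f (k + 1) - f (k - 1)‖ ^ 2 := by
  have h := stat_sum h0 (fun k => ‖f k‖ ^ 2) N
  simp only [h1, h2, sub_self, mul_zero] at h
  rw [← add_zero (∑ k ∈ range (N + 1), pw a k * (‖f k‖ ^ 2 - ‖Tr a f k‖ ^ 2)), ← h,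
    ← Finset.sum_add_distrib]
  apply Finset.sum_congr rfl
  intro k _
  rw [normsq_Tr]
  ring

/-- conductance between `k` and `k+2` -/
noncomputable def kap (a : ℝ) (k : ℕ) : ℝ := pw a k * Au a k * Au a (k + 1)

lemma kap_pos (h0 : 0 < a) (h1 : a ≤ 1 / 3) (k : ℕ) : 0 < kap a k := by
  unfold kap
  have := pw_pos h0 h1 k
  have := Au_pos h1 k
  have := Au_pos h1 (k + 1)
  positivity

lemma series (kp : ℕ → ℝ) (hk : ∀ k, 0 < kp k) (f : ℕ → ℂ) (t : ℕ → ℝ) (ht : ∀ k, 0 ≤ t k)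
    (ht2 : ∀ k, t (k + 2) = t k) (q : ℕ) :
    2 * t 0 * ‖f 0‖ + 2 * t 1 * ‖f 1‖ - 2 * t q * ‖f q‖ - 2 * t (q + 1) * ‖f (q + 1)‖
      ≤ ∑ k ∈ range q, (kp k * ‖f (k + 2) - f k‖ ^ 2 + t k ^ 2 / kp k) := by
  induction q with
  | zero => simp
  | succ q ih =>
    rw [Finset.sum_range_succ]
    have h1 : ‖f q‖ - ‖f (q + 2)‖ ≤ ‖f (q + 2) - f q‖ := by
      rw [norm_sub_rev]
      exact norm_sub_norm_le _ _
    have h2 : 2 * t q * ‖f (q + 2) - f q‖ ≤ kp q * ‖f (q + 2) - f q‖ ^ 2 + t q ^ 2 / kp q := by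
      have := hk q
      have h3 : kp q * ‖f (q + 2) - f q‖ ^ 2 + t q ^ 2 / kp q - 2 * t q * ‖f (q + 2) - f q‖
          = (kp q * ‖f (q + 2) - f q‖ - t q) ^ 2 / kp q := by
        field_simp
        ring
      have h4 : 0 ≤ (kp q * ‖f (q + 2) - f q‖ - t q) ^ 2 / kp q := by positivity
      linarith
    have h5 := mul_le_mul_of_nonneg_left h1 (ht q)
    rw [show q + 1 + 1 = q + 2 by rfl, ht2 q]
    nlinarith

/-- periodic weight -/
def per (x y : ℝ) (k : ℕ) : ℝ := if k % 2 = 0 then x else y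

/-- effective resistance bounds -/
def ResBound (a : ℝ) (n : ℕ) (Re Ro : ℝ) : Prop :=
  ∀ x y : ℝ, ∑ k ∈ range n, per x y k ^ 2 / kap a k ≤ x ^ 2 * Re + y ^ 2 * Ro

lemma defi_lower (h0 : 0 < a) (h1 : a ≤ 1 / 3) (f : ℕ → ℂ) {n N : ℕ} (hn : n ≤ N)
    (hf : ∀ k, n ≤ k → f k = 0) {Re Ro : ℝ} (hRe : 0 < Re) (hRo : 0 < Ro)
    (hR : ResBound a n Re Ro) :
    a * (1 - a) * ‖f 1 - f 0‖ ^ 2 + 1 / Re * ‖f 0‖ ^ 2 + 1 / Ro * ‖f 1‖ ^ 2
      ≤ ∑ k ∈ range (N + 1), pw a k * (‖f k‖ ^ 2 - ‖Tr a f k‖ ^ 2) := by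
  rw [defi_eq h0 f (hf N hn) (hf (N + 1) (by omega)), Finset.sum_range_succ']
  simp only [pw_zero, Au_zero, Cd_zero, Nat.add_sub_cancel, zero_add, Nat.zero_sub]
  have e1 : ∀ k, pw a (k + 1) * Au a (k + 1) * Cd a (k + 1) * ‖f (k + 1 + 1) - f k‖ ^ 2
      = kap a k * ‖f (k + 2) - f k‖ ^ 2 := by
    intro k
    unfold kap
    rw [← pw_bal h0 k]
    ring
  simp only [e1]
  have e2 : ∑ k ∈ range n, kap a k * ‖f (k + 2) - f k‖ ^ 2
      ≤ ∑ k ∈ range N, kap a k * ‖f (k + 2) - f k‖ ^ 2 := by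
    apply Finset.sum_le_sum_of_subset_of_nonneg (Finset.range_subset_range.2 hn)
    intro k _ _
    have := kap_pos h0 h1 k
    positivity
  have e3 := series (kap a) (kap_pos h0 h1) f (per (‖f 0‖ / Re) (‖f 1‖ / Ro))
    (fun k => by unfold per; split_ifs <;> positivity)
    (fun k => by unfold per; simp only [Nat.add_mod_right]) n
  rw [hf n le_rfl, hf (n + 1) (by omega), Finset.sum_add_distrib] at e3
  have e4 := hR (‖f 0‖ / Re) (‖f 1‖ / Ro)
  have p0 : per (‖f 0‖ / Re) (‖f 1‖ / Ro) 0 = ‖f 0‖ / Re := by simp [per]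
  have p1 : per (‖f 0‖ / Re) (‖f 1‖ / Ro) 1 = ‖f 1‖ / Ro := by simp [per]
  rw [p0, p1] at e3
  simp only [norm_zero, mul_zero, sub_zero] at e3
  have q0 : 2 * (‖f 0‖ / Re) * ‖f 0‖ - (‖f 0‖ / Re) ^ 2 * Re = 1 / Re * ‖f 0‖ ^ 2 := by
    field_simp
    ring
  have q1 : 2 * (‖f 1‖ / Ro) * ‖f 1‖ - (‖f 1‖ / Ro) ^ 2 * Ro = 1 / Ro * ‖f 1‖ ^ 2 := by
    field_simp
    ring
  nlinarith

lemma ee_succ (h0 : 0 < a) (k : ℕ) :
    pw a (k + 1) * Au a (k + 1) = pw a k * Au a k * ((k + 2 - a) / (k + 1 + a)) := by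
  rw [pw]
  have hk : (0 : ℝ) ≤ k := Nat.cast_nonneg k
  have e1 : Au a (k + 1) = (k + 2 - a) / (2 * k + 3) := by
    unfold Au
    push_cast
    congr 1 <;> ring
  have e2 : Cd a (k + 1) = (k + 1 + a) / (2 * k + 3) := by
    unfold Cd
    push_cast
    congr 1
    ring
  rw [e1, e2]
  have : (k : ℝ) + 1 + a ≠ 0 := by linarith
  field_simp

lemma ee_ge (h0 : 0 < a) (h1 : a ≤ 1 / 3) :
    2 / 3 ≤ pw a 0 * Au a 0 ∧ 5 / 6 ≤ pw a 1 * Au a 1 ∧ 20 / 21 ≤ pw a 2 * Au a 2 ∧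
      ∀ k, 3 ≤ k → 22 / 21 ≤ pw a k * Au a k := by
  have step : ∀ (k : ℕ) (x r : ℝ), 0 ≤ x → 0 ≤ r → x ≤ pw a k * Au a k →
      r * (k + 1 + a) ≤ k + 2 - a → x * r ≤ pw a (k + 1) * Au a (k + 1) := by
    intro k x r hx hr h2 h3
    rw [ee_succ h0]
    have hk : (0 : ℝ) ≤ k := Nat.cast_nonneg k
    apply mul_le_mul h2 _ hr (le_trans hx h2)
    rw [le_div_iff₀ (by linarith)]
    exact h3
  have e0 : 2 / 3 ≤ pw a 0 * Au a 0 := by
    rw [pw_zero, Au_zero]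
    linarith
  have e1 : 5 / 6 ≤ pw a 1 * Au a 1 := by
    have := step 0 (2 / 3) (5 / 4) (by norm_num) (by norm_num) e0 (by push_cast; linarith)
    norm_num at this ⊢
    exact this
  have e2 : 20 / 21 ≤ pw a 2 * Au a 2 := by
    have := step 1 (5 / 6) (8 / 7) (by norm_num) (by norm_num) e1 (by push_cast; linarith)
    norm_num at this ⊢
    exact this
  have e3 : 22 / 21 ≤ pw a 3 * Au a 3 := by
    have := step 2 (20 / 21) (11 / 10) (by norm_num) (by norm_num) e2 (by push_cast; linarith)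
    norm_num at this ⊢
    exact this
  refine ⟨e0, e1, e2, ?_⟩
  intro k hk
  induction k, hk using Nat.le_induction with
  | base => exact e3
  | succ k _ ih =>
    have := step k (22 / 21) 1 (by norm_num) (by norm_num) ih (by linarith)
    linarith

lemma kap_ge (h0 : 0 < a) (h1 : a ≤ 1 / 3) :
    10 / 27 ≤ kap a 0 ∧ 4 / 9 ≤ kap a 1 ∧ 100 / 201 ≤ kap a 2 ∧
      ∀ k, 3 ≤ k → 11 / 21 ≤ kap a k := by
  obtain ⟨e0, e1, e2, e3⟩ := ee_ge h0 h1
  have step : ∀ (k : ℕ) (x r : ℝ), 0 ≤ x → 0 ≤ r → x ≤ pw a k * Au a k →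
      r * (2 * k + 3) ≤ k + 2 - a → x * r ≤ kap a k := by
    intro k x r hx hr h2 h3
    unfold kap
    have hk : (0 : ℝ) ≤ k := Nat.cast_nonneg k
    apply mul_le_mul h2 _ hr (le_trans hx h2)
    unfold Au
    push_cast
    rw [le_div_iff₀ (by linarith)]
    linarith
  refine ⟨?_, ?_, ?_, ?_⟩
  · have := step 0 (2 / 3) (5 / 9) (by norm_num) (by norm_num) e0 (by push_cast; linarith)
    linarith
  · have := step 1 (5 / 6) (8 / 15) (by norm_num) (by norm_num) e1 (by push_cast; linarith)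
    linarith
  · have := step 2 (20 / 21) (11 / 21) (by norm_num) (by norm_num) e2 (by push_cast; linarith)
    linarith
  · intro k hk
    have := step k (22 / 21) (1 / 2) (by norm_num) (by norm_num) (e3 k hk) (by linarith)
    linarith

lemma div_kap_le {k : ℕ} {r : ℝ} (hr : 0 < r) (h : r ≤ kap a k) (x : ℝ) :
    x ^ 2 / kap a k ≤ x ^ 2 * (1 / r) := by
  rw [mul_one_div]
  exact div_le_div_of_nonneg_left (sq_nonneg x) hr h

lemma res1 (h0 : 0 < a) (h1 : a ≤ 1 / 3) : ResBound a 1 (27 / 10) 1 := by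
  intro x y
  obtain ⟨k0, -, -, -⟩ := kap_ge h0 h1
  have := div_kap_le (by norm_num) k0 x
  simp only [range_one, sum_singleton, per, Nat.zero_mod, if_true]
  nlinarith [sq_nonneg y]

lemma res2 (h0 : 0 < a) (h1 : a ≤ 1 / 3) : ResBound a 2 (27 / 10) (9 / 4) := by
  intro x y
  obtain ⟨k0, k1, -, -⟩ := kap_ge h0 h1
  have := div_kap_le (by norm_num) k0 x
  have := div_kap_le (by norm_num) k1 y
  simp only [Finset.sum_range_succ, range_zero, sum_empty, per]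
  norm_num
  linarith

lemma res3 (h0 : 0 < a) (h1 : a ≤ 1 / 3) : ResBound a 3 (471 / 100) (9 / 4) := by
  intro x y
  obtain ⟨k0, k1, k2, -⟩ := kap_ge h0 h1
  have := div_kap_le (by norm_num) k0 x
  have := div_kap_le (by norm_num) k1 y
  have := div_kap_le (by norm_num) k2 x
  simp only [Finset.sum_range_succ, range_zero, sum_empty, per]
  norm_num
  linarith

lemma resn (h0 : 0 < a) (h1 : a ≤ 1 / 3) {n : ℕ} (hn : 4 ≤ n) :
    ResBound a n (4 / 3 * n) (21 / 20 * n) := by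
  intro x y
  have r3 := res3 h0 h1 x y
  obtain ⟨-, -, -, k3⟩ := kap_ge h0 h1
  have hx := sq_nonneg x
  have hy := sq_nonneg y
  have key : ∀ j : ℕ, ∑ k ∈ range (2 * j + 4), per x y k ^ 2 / kap a k
      ≤ x ^ 2 * (471 / 100 + 21 / 11 * j) + y ^ 2 * (9 / 4 + 21 / 11 * (j + 1)) := by
    intro j
    induction j with
    | zero =>
      rw [Finset.sum_range_succ]
      have := div_kap_le (by norm_num) (k3 3 le_rfl) y
      have p : per x y (2 * 0 + 3) = y := by simp [per]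
      rw [p]
      simp only [mul_zero, zero_add, Nat.cast_zero] at *
      linarith
    | succ j ih =>
      rw [show 2 * (j + 1) + 4 = 2 * j + 4 + 1 + 1 by ring, Finset.sum_range_succ,
        Finset.sum_range_succ]
      have p1 : per x y (2 * j + 4) = x := by
        unfold per
        rw [if_pos (by omega)]
      have p2 : per x y (2 * j + 4 + 1) = y := by
        unfold per
        rw [if_neg (by omega)]
      have := div_kap_le (by norm_num) (k3 (2 * j + 4) (by omega)) x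
      have := div_kap_le (by norm_num) (k3 (2 * j + 4 + 1) (by omega)) y
      rw [p1, p2]
      push_cast
      linarith
  obtain ⟨j, hj | hj⟩ : ∃ j, n = 2 * j + 4 ∨ n = 2 * j + 4 + 1 := ⟨(n - 4) / 2, by omega⟩
  · subst hj
    have := key j
    have hj0 : (0 : ℝ) ≤ j := Nat.cast_nonneg j
    push_cast
    nlinarith [mul_nonneg hx hj0, mul_nonneg hy hj0]
  · subst hj
    have := key j
    have hj0 : (0 : ℝ) ≤ j := Nat.cast_nonneg j
    rw [Finset.sum_range_succ]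
    have p1 : per x y (2 * j + 4) = x := by
      unfold per
      rw [if_pos (by omega)]
    have := div_kap_le (by norm_num) (k3 (2 * j + 4) (by omega)) x
    rw [p1]
    push_cast
    nlinarith [mul_nonneg hx hj0, mul_nonneg hy hj0]

lemma sum_delta (f : ℕ → ℂ) (x : ℂ) (N : ℕ) :
    ∑ k ∈ range (N + 1), pw a k * ‖(if k = 0 then x else 0) + Tr a f k‖ ^ 2
      = ∑ k ∈ range (N + 1), pw a k * ‖Tr a f k‖ ^ 2
        + (‖x + (((1 - a : ℝ) : ℂ) * f 1 + (a : ℂ) * f 0)‖ ^ 2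
          - ‖((1 - a : ℝ) : ℂ) * f 1 + (a : ℂ) * f 0‖ ^ 2) := by
  rw [Finset.sum_range_succ', Finset.sum_range_succ']
  simp only [Nat.add_eq_zero_iff, one_ne_zero, and_false, if_false, zero_add, if_true, pw_zero,
    one_mul]
  have : Tr a f 0 = ((1 - a : ℝ) : ℂ) * f 1 + (a : ℂ) * f 0 := by
    simp only [Tr, Au_zero, Cd_zero]
  rw [this]
  ring

/-- the energy does not increase in one step -/
theorem step (h0 : 0 < a) (h1 : a ≤ 1 / 3) {N n : ℕ} (hn1 : 1 ≤ n) (hN : 5 ≤ N) (hn : 2 * n ≤ N)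
    (f g : ℕ → ℂ) (hf : ∀ k, n ≤ k → f k = 0) (hg : ∀ k, n ≤ k + 1 → g k = 0) :
    ∑ k ∈ range (N + 1), pw a k *
        ‖(if k = 0 then ((a * (1 / n) : ℝ) : ℂ) * (f 0 - g 0)
          + ((a * (1 / (N - n : ℝ)) : ℝ) : ℂ) * f 0 else 0) + Tr a f k‖ ^ 2
      + ∑ k ∈ range (N + 1), pw a k *
        ‖(if k = 0 then ((a * (1 / (N - n : ℝ)) : ℝ) : ℂ) * f 0 else 0) + Tr a g k‖ ^ 2
      ≤ ∑ k ∈ range (N + 1), pw a k * ‖f k‖ ^ 2 + ∑ k ∈ range (N + 1), pw a k * ‖g k‖ ^ 2 := by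
  rw [sum_delta, sum_delta]
  have hg' : ∀ k, n ≤ k → g k = 0 := fun k hk => hg k (by omega)
  have hNr : (5 : ℝ) ≤ N := by exact_mod_cast hN
  have hnr : 2 * (n : ℝ) ≤ N := by exact_mod_cast hn
  have hn1r : (1 : ℝ) ≤ n := by exact_mod_cast hn1
  have main : ∀ Re Ro : ℝ, 0 < Re → 0 < Ro → ResBound a n Re Ro →
      0 ≤ Qf a (1 / n) (1 / (N - n : ℝ)) (1 / Re) (1 / Ro) (f 0).re (f 1).re (g 0).re (g 1).re →
      0 ≤ Qf a (1 / n) (1 / (N - n : ℝ)) (1 / Re) (1 / Ro) (f 0).im (f 1).im (g 0).im (g 1).im →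
      ∑ k ∈ range (N + 1), pw a k * ‖Tr a f k‖ ^ 2 +
        (‖((a * (1 / n) : ℝ) : ℂ) * (f 0 - g 0) + ((a * (1 / (N - n : ℝ)) : ℝ) : ℂ) * f 0 +
          (((1 - a : ℝ) : ℂ) * f 1 + (a : ℂ) * f 0)‖ ^ 2 -
          ‖((1 - a : ℝ) : ℂ) * f 1 + (a : ℂ) * f 0‖ ^ 2) +
        (∑ k ∈ range (N + 1), pw a k * ‖Tr a g k‖ ^ 2 +
          (‖((a * (1 / (N - n : ℝ)) : ℝ) : ℂ) * f 0 + (((1 - a : ℝ) : ℂ) * g 1 + (a : ℂ) * g 0)‖ ^ 2 -
          ‖((1 - a : ℝ) : ℂ) * g 1 + (a : ℂ) * g 0‖ ^ 2)) ≤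
      ∑ k ∈ range (N + 1), pw a k * ‖f k‖ ^ 2 + ∑ k ∈ range (N + 1), pw a k * ‖g k‖ ^ 2 := by
    intro Re Ro hRe hRo hR q1 q2
    have d1 := defi_lower h0 h1 f (N := N) (by omega) hf hRe hRo hR
    have d2 := defi_lower h0 h1 g (N := N) (by omega) hg' hRe hRo hR
    have d3 := Qf_complex (f 0) (f 1) (g 0) (g 1) q1 q2
    simp only [mul_sub, Finset.sum_sub_distrib] at d1 d2
    simp only [mul_sub] at d3 ⊢
    linarith
  have hc0 : 0 ≤ 1 / ((N : ℝ) - n) := by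
    apply div_nonneg zero_le_one
    linarith
  by_cases c1 : n = 1
  · subst c1
    have f1 : f 1 = 0 := hf 1 le_rfl
    have g0 : g 0 = 0 := hg 0 le_rfl
    have g1 : g 1 = 0 := hg 1 (by omega)
    have hc1 : 1 / ((N : ℝ) - (1 : ℕ)) ≤ 1 / 4 := by
      apply one_div_le_one_div_of_le (by norm_num)
      push_cast
      linarith
    apply main (27 / 10) 1 (by norm_num) (by norm_num) (res1 h0 h1)
    · rw [f1, g0, g1]
      have := quad1 h0.le h1 hc0 hc1 (f 0).re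
      norm_num at this ⊢
      exact this
    · rw [f1, g0, g1]
      have := quad1 h0.le h1 hc0 hc1 (f 0).im
      norm_num at this ⊢
      exact this
  by_cases c2 : n = 2
  · subst c2
    have hc1 : 1 / ((N : ℝ) - (2 : ℕ)) ≤ 1 / 3 := by
      apply one_div_le_one_div_of_le (by norm_num)
      push_cast
      linarith
    apply main (27 / 10) (9 / 4) (by norm_num) (by norm_num) (res2 h0 h1)
    · have := quad2 h0.le h1 hc0 hc1 (f 0).re (f 1).re (g 0).re (g 1).re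
      norm_num at this ⊢
      exact this
    · have := quad2 h0.le h1 hc0 hc1 (f 0).im (f 1).im (g 0).im (g 1).im
      norm_num at this ⊢
      exact this
  by_cases c3 : n = 3
  · subst c3
    have hc1 : 1 / ((N : ℝ) - (3 : ℕ)) ≤ 1 / 3 := by
      apply one_div_le_one_div_of_le (by norm_num)
      push_cast at hnr ⊢
      linarith
    apply main (471 / 100) (9 / 4) (by norm_num) (by norm_num) (res3 h0 h1)
    · have := quad3 h0.le h1 hc0 hc1 (f 0).re (f 1).re (g 0).re (g 1).re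
      norm_num at this ⊢
      exact this
    · have := quad3 h0.le h1 hc0 hc1 (f 0).im (f 1).im (g 0).im (g 1).im
      norm_num at this ⊢
      exact this
  have c4 : 4 ≤ n := by omega
  have c4r : (4 : ℝ) ≤ n := by exact_mod_cast c4
  apply main (4 / 3 * n) (21 / 20 * n) (by positivity) (by positivity) (resn h0 h1 c4)
  · exact quadn h0.le h1 c4r (by linarith) _ _ _ _
  · exact quadn h0.le h1 c4r (by linarith) _ _ _ _

end Pool.Agent.P.MP_bdc337_an
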