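import Mathlib

set_option autoImplicit false

open Finset PowerSeries

namespace Pool.Agent.P.MP_bdc337_an

/-- truncated square norm -/
noncomputable def nsq (n : ℕ) (a : ℂ⟦X⟧) : ℝ := ∑ k ∈ range n, ‖coeff k a‖ ^ 2

/-- truncated defect -/
noncomputable def Dd (w : ℂ⟦X⟧) (n : ℕ) (a : ℂ⟦X⟧) : ℝ := nsq n a - nsq n (w * a)

/-- crossing form -/
noncomputable def beta (w : ℂ⟦X⟧) (N M L : ℕ) (a b : ℂ⟦X⟧) : ℂ :=
  ∑ j ∈ range M, ∑ l ∈ range L, coeff (N - j - l) w * coeff j a * coeff l b

/-- bilinear contraction property of a Schwarz function -/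
def Contr (w : ℂ⟦X⟧) : Prop :=
  coeff 0 w = 0 ∧ ∀ (N : ℕ) (a b : ℂ⟦X⟧), 2 * ‖coeff N (w * a * b)‖ ≤ nsq N a + nsq N b

lemma coeff_conv {w : ℂ⟦X⟧} (h0 : coeff 0 w = 0) (a : ℂ⟦X⟧) {n M : ℕ} (hn : n ≤ M) :
    coeff n (w * a) = ∑ j ∈ range M, coeff (n - j) w * coeff j a := by
  rw [mul_comm, coeff_mul, Finset.Nat.sum_antidiagonal_eq_sum_range_succ_mk, Finset.sum_range_succ]
  simp only [Nat.sub_self, h0, mul_zero, add_zero]
  symm
  rw [← Finset.sum_subset (Finset.range_subset_range.2 hn)]
  · apply Finset.sum_congr rfl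
    intro j _
    ring
  · intro j _ hj
    have : n - j = 0 := by
      simp only [Finset.mem_range, not_lt] at hj
      omega
    rw [this, h0, zero_mul]

lemma coeff_zero_mul_left {w : ℂ⟦X⟧} (h0 : coeff 0 w = 0) (a : ℂ⟦X⟧) : coeff 0 (w * a) = 0 := by
  rw [coeff_conv h0 a (le_refl 0)]
  simp

lemma coeff_mul_mul_eq_beta {w : ℂ⟦X⟧} (h0 : coeff 0 w = 0) (N : ℕ) (a b : ℂ⟦X⟧) :
    coeff N (w * a * b) = beta w N N N a b := by
  have h1 : coeff 0 (w * a) = 0 := coeff_zero_mul_left h0 a
  rw [coeff_conv h1 b (le_refl N)]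
  unfold beta
  rw [Finset.sum_comm]
  apply Finset.sum_congr rfl
  intro l _
  rw [coeff_conv h0 a (Nat.sub_le N l), Finset.sum_mul]
  apply Finset.sum_congr rfl
  intro j _
  rw [Nat.sub_right_comm]

lemma sum_range_flip (g : ℕ → ℝ) (hg : g 0 = 0) {N M L : ℕ} (hML : M + L = N + 1) (hM : 1 ≤ M)
    (_hL : 1 ≤ L) : ∑ l ∈ Ico L N, g (N - l) = ∑ k ∈ range M, g k := by
  have h1 : ∑ l ∈ Ico L N, g (N - l) = ∑ k ∈ Ico 1 M, g k := by
    rw [Finset.sum_Ico_reflect g L (by omega : N ≤ N + 1)]
    congr 1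
    congr 1 <;> omega
  rw [h1, Finset.range_eq_Ico, Finset.sum_eq_sum_Ico_succ_bot (by omega : 0 < M), hg, zero_add]

/-- meet in the middle inequality -/
theorem mm {w : ℂ⟦X⟧} (hw : Contr w) {N M L : ℕ} (hML : M + L = N + 1) (hM : 1 ≤ M)
    (hL : 1 ≤ L) (a b : ℂ⟦X⟧) : 2 * ‖beta w N M L a b‖ ≤ Dd w M a + Dd w L b := by
  obtain ⟨h0, hb⟩ := hw
  obtain ⟨lam, hlam, hl2⟩ : ∃ lam : ℂ, ‖lam‖ = 1 ∧ lam * beta w N M L a b = ‖beta w N M L a b‖ := by
    by_cases h : beta w N M L a b = 0
    · exact ⟨1, by simp, by simp [h]⟩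
    · refine ⟨‖beta w N M L a b‖ / beta w N M L a b, ?_, ?_⟩
      · rw [norm_div, Complex.norm_real, norm_norm, div_self (norm_ne_zero_iff.2 h)]
      · field_simp
  have hll : (starRingEnd ℂ) lam * lam = 1 := by
    rw [mul_comm, Complex.mul_conj, Complex.normSq_eq_norm_sq, hlam]
    simp
  set A : ℂ⟦X⟧ := PowerSeries.mk fun j =>
    if j < M then lam * coeff j a else (starRingEnd ℂ) (coeff (N - j) (w * b)) with hA
  set B : ℂ⟦X⟧ := PowerSeries.mk fun l =>
    if l < L then coeff l b else (starRingEnd ℂ) lam * (starRingEnd ℂ) (coeff (N - l) (w * a))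
    with hB
  have key := hb N A B
  have hMN : M ≤ N := by omega
  have hLN : L ≤ N := by omega
  have nA : nsq N A = nsq M a + nsq L (w * b) := by
    unfold nsq
    rw [← Finset.sum_range_add_sum_Ico _ hMN]
    congr 1
    · apply Finset.sum_congr rfl
      intro j hj
      rw [hA, coeff_mk, if_pos (Finset.mem_range.1 hj), norm_mul, hlam, one_mul]
    · rw [← sum_range_flip (fun k => ‖coeff k (w * b)‖ ^ 2)
        (by simp [coeff_zero_mul_left h0 b]) (by omega : L + M = N + 1) hL hM]
      apply Finset.sum_congr rfl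
      intro j hj
      rw [hA, coeff_mk, if_neg (by have := (Finset.mem_Ico.1 hj).1; omega), Complex.norm_conj]
  have nB : nsq N B = nsq L b + nsq M (w * a) := by
    unfold nsq
    rw [← Finset.sum_range_add_sum_Ico _ hLN]
    congr 1
    · apply Finset.sum_congr rfl
      intro j hj
      rw [hB, coeff_mk, if_pos (Finset.mem_range.1 hj)]
    · rw [← sum_range_flip (fun k => ‖coeff k (w * a)‖ ^ 2)
        (by simp [coeff_zero_mul_left h0 a]) hML hM hL]
      apply Finset.sum_congr rfl
      intro j hj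
      rw [hB, coeff_mk, if_neg (by have := (Finset.mem_Ico.1 hj).1; omega), norm_mul,
        Complex.norm_conj, Complex.norm_conj, hlam, one_mul]
  have hval : coeff N (w * A * B)
      = ((‖beta w N M L a b‖ + nsq M (w * a) + nsq L (w * b) : ℝ) : ℂ) := by
    rw [coeff_mul_mul_eq_beta h0]
    unfold beta
    rw [← Finset.sum_range_add_sum_Ico _ hMN]
    have e1 : ∑ j ∈ range M, ∑ l ∈ range N, coeff (N - j - l) w * coeff j A * coeff l B
        = lam * (∑ j ∈ range M, ∑ l ∈ range L, coeff (N - j - l) w * coeff j a * coeff l b)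
          + (nsq M (w * a) : ℂ) := by
      have : ∀ j ∈ range M, ∑ l ∈ range N, coeff (N - j - l) w * coeff j A * coeff l B
          = lam * (∑ l ∈ range L, coeff (N - j - l) w * coeff j a * coeff l b)
            + ∑ l ∈ Ico L N, (starRingEnd ℂ) (coeff (N - l) (w * a))
              * (coeff (N - l - j) w * coeff j a) := by
        intro j hj
        rw [← Finset.sum_range_add_sum_Ico _ hLN, Finset.mul_sum]
        congr 1
        · apply Finset.sum_congr rfl
          intro l hl
          rw [hA, hB, coeff_mk, coeff_mk, if_pos (Finset.mem_range.1 hj),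
            if_pos (Finset.mem_range.1 hl)]
          ring
        · apply Finset.sum_congr rfl
          intro l hl
          rw [hA, hB, coeff_mk, coeff_mk, if_pos (Finset.mem_range.1 hj),
            if_neg (by have := (Finset.mem_Ico.1 hl).1; omega), Nat.sub_right_comm]
          linear_combination (coeff (N - l - j) w * coeff j a *
            (starRingEnd ℂ) (coeff (N - l) (w * a))) * hll
      rw [Finset.sum_congr rfl this, Finset.sum_add_distrib, ← Finset.mul_sum]
      congr 1
      rw [Finset.sum_comm]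
      unfold nsq
      rw [← sum_range_flip (fun k => ‖coeff k (w * a)‖ ^ 2)
        (by simp [coeff_zero_mul_left h0 a]) hML hM hL]
      push_cast
      apply Finset.sum_congr rfl
      intro l hl
      rw [← Finset.mul_sum, ← coeff_conv h0 a (by have := (Finset.mem_Ico.1 hl).1; omega),
        mul_comm, Complex.mul_conj, Complex.normSq_eq_norm_sq]
      push_cast
      ring
    have e2 : ∑ j ∈ Ico M N, ∑ l ∈ range N, coeff (N - j - l) w * coeff j A * coeff l B
        = (nsq L (w * b) : ℂ) := by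
      unfold nsq
      rw [← sum_range_flip (fun k => ‖coeff k (w * b)‖ ^ 2)
        (by simp [coeff_zero_mul_left h0 b]) (by omega : L + M = N + 1) hL hM]
      push_cast
      apply Finset.sum_congr rfl
      intro j hj
      have hj1 := (Finset.mem_Ico.1 hj).1
      rw [← Finset.sum_range_add_sum_Ico _ hLN]
      have z1 : ∑ l ∈ Ico L N, coeff (N - j - l) w * coeff j A * coeff l B = 0 := by
        apply Finset.sum_eq_zero
        intro l hl
        have : N - j - l = 0 := by have := (Finset.mem_Ico.1 hl).1; omega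
        rw [this, h0]
        ring
      have z2 : ∑ l ∈ range L, coeff (N - j - l) w * coeff j A * coeff l B
          = (starRingEnd ℂ) (coeff (N - j) (w * b)) * coeff (N - j) (w * b) := by
        rw [coeff_conv h0 b (by omega : N - j ≤ L), Finset.mul_sum, ← coeff_conv h0 b (by omega : N - j ≤ L)]
        apply Finset.sum_congr rfl
        intro l hl
        rw [hA, hB, coeff_mk, coeff_mk, if_neg (by omega), if_pos (Finset.mem_range.1 hl)]
        ring
      rw [z1, z2, add_zero, mul_comm, Complex.mul_conj, Complex.normSq_eq_norm_sq]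
      push_cast
      ring
    rw [e1, e2]
    unfold beta at hl2
    rw [hl2]
    push_cast
    ring
  have hn1 : 0 ≤ nsq M (w * a) := Finset.sum_nonneg (fun _ _ => by positivity)
  have hn2 : 0 ≤ nsq L (w * b) := Finset.sum_nonneg (fun _ _ => by positivity)
  rw [hval, Complex.norm_real, Real.norm_of_nonneg (by positivity), nA, nB] at key
  unfold Dd
  linarith

/-- weighted form -/
theorem mm_weighted {w : ℂ⟦X⟧} (hw : Contr w) {N M L : ℕ} (hML : M + L = N + 1) (hM : 1 ≤ M)
    (hL : 1 ≤ L) (a b : ℂ⟦X⟧) {mu : ℝ} (hmu : 0 < mu) :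
    2 * ‖beta w N M L a b‖ ≤ mu * Dd w M a + Dd w L b / mu := by
  set s := Real.sqrt mu with hs
  have hs0 : 0 < s := Real.sqrt_pos.2 hmu
  have hs2 : s ^ 2 = mu := Real.sq_sqrt hmu.le
  have h := mm hw hML hM hL ((s : ℂ) • a) ((s⁻¹ : ℂ) • b)
  have hsc : (s : ℂ) ≠ 0 := by exact_mod_cast hs0.ne'
  have e1 : beta w N M L ((s : ℂ) • a) ((s⁻¹ : ℂ) • b) = beta w N M L a b := by
    unfold beta
    apply Finset.sum_congr rfl
    intro j _
    apply Finset.sum_congr rfl
    intro l _
    simp only [map_smul, smul_eq_mul]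
    field_simp
  have e2 : ∀ (c : ℂ) (n : ℕ) (x : ℂ⟦X⟧), Dd w n (c • x) = ‖c‖ ^ 2 * Dd w n x := by
    intro c n x
    unfold Dd nsq
    rw [mul_smul_comm]
    simp only [map_smul, smul_eq_mul, norm_mul, mul_pow, ← Finset.mul_sum]
    ring
  rw [e1, e2, e2, norm_inv, Complex.norm_real, Real.norm_of_nonneg hs0.le, inv_pow, hs2] at h
  rw [div_eq_inv_mul]
  exact h

lemma beta_step {w : ℂ⟦X⟧} (h0 : coeff 0 w = 0) {N M L : ℕ} (h : M + L = N) (a b : ℂ⟦X⟧) :
    beta w N (M + 1) L a b - beta w N M (L + 1) a b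
      = coeff M a * coeff L (w * b) - coeff L b * coeff M (w * a) := by
  unfold beta
  rw [Finset.sum_range_succ]
  simp only [Finset.sum_range_succ, Finset.sum_add_distrib]
  rw [coeff_conv h0 b (le_refl L), coeff_conv h0 a (le_refl M), Finset.mul_sum, Finset.mul_sum]
  have e1 : ∑ l ∈ range L, coeff (N - M - l) w * coeff M a * coeff l b
      = ∑ l ∈ range L, coeff M a * (coeff (L - l) w * coeff l b) := by
    apply Finset.sum_congr rfl
    intro l _
    rw [show N - M - l = L - l by omega]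
    ring
  have e2 : ∑ j ∈ range M, coeff (N - j - L) w * coeff j a * coeff L b
      = ∑ j ∈ range M, coeff L b * (coeff (M - j) w * coeff j a) := by
    apply Finset.sum_congr rfl
    intro j _
    rw [show N - j - L = M - j by omega]
    ring
  rw [e1, e2]
  ring

lemma beta_last {w : ℂ⟦X⟧} (h0 : coeff 0 w = 0) (N : ℕ) (a b : ℂ⟦X⟧) :
    beta w N N 1 a b = coeff 0 b * coeff N (w * a) := by
  unfold beta
  rw [coeff_conv h0 a (le_refl N), Finset.mul_sum]
  apply Finset.sum_congr rfl
  intro j _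
  simp only [Finset.range_one, Finset.sum_singleton, Nat.sub_zero]
  ring

end Pool.Agent.P.MP_bdc337_an
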