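import Pool.Agent.P.MP_bdc337_an.Contr
import Pool.Agent.P.MP_bdc337_an.Chain

set_option autoImplicit false

open Finset PowerSeries

namespace Pool.Agent.P.MP_bdc337_an

/-- transition operator on families of power series -/
noncomputable def TrS (a : ℝ) (F : ℕ → ℂ⟦X⟧) (k : ℕ) : ℂ⟦X⟧ :=
  C (Au a k : ℂ) * F (k + 1) + C (Cd a k : ℂ) * F (k - 1)

lemma coeff_TrS (a : ℝ) (F : ℕ → ℂ⟦X⟧) (k n : ℕ) :
    coeff n (TrS a F k) = Tr a (fun k => coeff n (F k)) k := by
  simp only [TrS, Tr, map_add, coeff_C_mul]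

/-- coefficients of the resolvent family -/
noncomputable def bb (a : ℝ) (w : ℂ⟦X⟧) (n : ℕ) : ℕ → ℂ :=
  fun k => (if n = 0 ∧ k = 0 then 1 else 0)
    + Tr a (fun k' => ∑ j : Fin n, coeff (n - j.val) w * bb a w j.val k') k
decreasing_by exact j.isLt

/-- the resolvent family -/
noncomputable def BB (a : ℝ) (w : ℂ⟦X⟧) (k : ℕ) : ℂ⟦X⟧ := PowerSeries.mk fun n => bb a w n k

/-- delta family -/
noncomputable def dl (k : ℕ) : ℂ⟦X⟧ := if k = 0 then 1 else 0

variable {a : ℝ} {w : ℂ⟦X⟧}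

lemma BB_eq (a : ℝ) (h0 : coeff 0 w = 0) (k : ℕ) :
    BB a w k = dl k + TrS a (fun k => w * BB a w k) k := by
  ext n
  rw [map_add, coeff_TrS, BB, coeff_mk, bb]
  congr 1
  · unfold dl
    by_cases hk : k = 0
    · simp [hk, coeff_one]
    · simp [hk]
  · congr 1
    funext k'
    rw [coeff_conv h0 _ (le_refl n), Finset.sum_range]
    simp only [BB, coeff_mk]

lemma fam_unique (a : ℝ) (h0 : coeff 0 w = 0) (Z : ℕ → ℂ⟦X⟧)
    (hZ : ∀ k, Z k = TrS a (fun k => w * Z k) k) : ∀ k, Z k = 0 := by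
  have : ∀ n k, coeff n (Z k) = 0 := by
    intro n
    induction n using Nat.strong_induction_on with
    | _ n ih =>
      intro k
      rw [hZ k, coeff_TrS]
      have : (fun k => coeff n (w * Z k)) = fun _ => 0 := by
        funext k'
        rw [coeff_conv h0 _ (le_refl n)]
        apply Finset.sum_eq_zero
        intro j hj
        rw [ih j (Finset.mem_range.1 hj), mul_zero]
      rw [this]
      simp [Tr]
  intro k
  ext n
  simp [this]

lemma coeff_BB_eq_zero (a : ℝ) (h0 : coeff 0 w = 0) : ∀ n k, n < k → coeff n (BB a w k) = 0 := by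
  intro n
  induction n using Nat.strong_induction_on with
  | _ n ih =>
    intro k hk
    rw [BB_eq a h0 k, map_add, coeff_TrS]
    have e : ∀ k', n ≤ k' → coeff n (w * BB a w k') = 0 := by
      intro k' hk'
      rw [coeff_conv h0 _ (le_refl n)]
      apply Finset.sum_eq_zero
      intro j hj
      have := Finset.mem_range.1 hj
      rw [ih j this k' (by omega), mul_zero]
    simp only [Tr, dl]
    rw [if_neg (by omega), e (k + 1) (by omega), e (k - 1) (by omega)]
    simp

/-- ladder operator -/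
noncomputable def DS (a : ℝ) (F : ℕ → ℂ⟦X⟧) (k : ℕ) : ℂ⟦X⟧ :=
  C ((k + 2) * Au a k : ℂ) * F (k + 1) - C (a : ℂ) * F k - C ((k - 1) * Cd a k : ℂ) * F (k - 1)

lemma commut (a : ℝ) (F : ℕ → ℂ⟦X⟧) (k : ℕ) :
    DS a (TrS a F) k = TrS a (DS a F) k + F k - TrS a (TrS a F) k := by
  simp only [DS, TrS, ← smul_eq_C_mul]
  rcases k with _ | k
  · simp only [Au, Cd, Nat.zero_sub, Nat.add_sub_cancel]
    match_scalars <;> field_simp <;> ring
  · have h1 : (2 * (k : ℂ) + 1) ≠ 0 := by exact_mod_cast (by omega : 2 * k + 1 ≠ 0)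
    have h3 : (2 * (k : ℂ) + 3) ≠ 0 := by exact_mod_cast (by omega : 2 * k + 3 ≠ 0)
    have h5 : (2 * (k : ℂ) + 5) ≠ 0 := by exact_mod_cast (by omega : 2 * k + 5 ≠ 0)
    have a0 : (Au a k : ℂ) = (k + 1 - a) / (2 * k + 1) := by
      unfold Au; push_cast; ring
    have a1 : (Au a (k + 1) : ℂ) = (k + 2 - a) / (2 * k + 3) := by
      unfold Au; push_cast; ring
    have a2 : (Au a (k + 1 + 1) : ℂ) = (k + 3 - a) / (2 * k + 5) := by
      unfold Au; push_cast; ring
    have c0 : (Cd a k : ℂ) = (k + a) / (2 * k + 1) := by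
      unfold Cd; push_cast; ring
    have c1 : (Cd a (k + 1) : ℂ) = (k + 1 + a) / (2 * k + 3) := by
      unfold Cd; push_cast; ring
    have c2 : (Cd a (k + 1 + 1) : ℂ) = (k + 2 + a) / (2 * k + 5) := by
      unfold Cd; push_cast; ring
    simp only [Nat.add_sub_cancel]
    match_scalars
    all_goals
      rw [← sub_eq_zero]
      simp only [a0, a1, a2, c0, c1, c2]
      first
        | (field_simp; ring1)
        | linear_combination (exp := 1) (2 * (k : ℂ) + 3)⁻¹ * (((k : ℂ) + 2) ^ 2 - (a : ℂ) ^ 2) * mul_inv_cancel₀ h5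
            - (2 * (k : ℂ) + 3)⁻¹ * (((k : ℂ) + 1) ^ 2 - (a : ℂ) ^ 2) * mul_inv_cancel₀ h1
            + mul_inv_cancel₀ h3

lemma DS_dl (a : ℝ) (k : ℕ) : DS a dl k = 0 := by
  rcases k with _ | _ | k
  · simp [DS, dl, Cd]
  · simp [DS, dl]
  · simp [DS, dl]

/-- the kernel series -/
noncomputable def KK (a : ℝ) (w : ℂ⟦X⟧) : ℂ⟦X⟧ := w * BB a w 0

lemma KK_ode (a : ℝ) (h0 : coeff 0 w = 0) :
    (1 - w ^ 2) * d⁄dX ℂ (KK a w) = (1 + 2 * C (a : ℂ) * KK a w) * d⁄dX ℂ w := by
  set B := BB a w with hB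
  set w' := d⁄dX ℂ w with hw'
  let B' : ℕ → ℂ⟦X⟧ := fun k => d⁄dX ℂ (B k)
  have e1 : ∀ k, B k = dl k + w * TrS a B k := by
    intro k
    rw [hB, BB_eq a h0 k]
    simp only [TrS]
    ring
  have e2 : ∀ k, B' k = w' * TrS a B k + w * TrS a B' k := by
    intro k
    have hd : d⁄dX ℂ (dl k) = 0 := by
      unfold dl
      split_ifs
      · exact derivative_one
      · exact map_zero _
    simp only [B']
    conv_lhs => rw [e1 k]
    simp only [TrS, map_add, Derivation.leibniz, derivative_C, hd, smul_eq_mul, ← hw']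
    ring
  have e3 : ∀ k, DS a B k = w * (TrS a (DS a B) k + B k - TrS a (TrS a B) k) := by
    intro k
    rw [← commut]
    have := DS_dl a k
    simp only [DS] at this ⊢
    linear_combination (C ((k + 2) * Au a k : ℂ)) * e1 (k + 1) - C (a : ℂ) * e1 k
      - C ((k - 1) * Cd a k : ℂ) * e1 (k - 1) + this
  have e4 : ∀ k, TrS a B k = TrS a dl k + w * TrS a (TrS a B) k := by
    intro k
    have h1 := e1 (k + 1)
    have h2 := e1 (k - 1)
    conv_lhs => rw [TrS]
    conv_rhs => rw [TrS, TrS]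
    linear_combination C (Au a k : ℂ) * h1 + C (Cd a k : ℂ) * h2
  have hZ := fam_unique a h0
    (fun k => w' * (2 * B k - dl k - w * DS a B k) - (1 - w ^ 2) * (w' * B k + w * B' k)) (by
      intro k
      have : TrS a (fun k => w * (w' * (2 * B k - dl k - w * DS a B k)
          - (1 - w ^ 2) * (w' * B k + w * B' k))) k
          = w * (w' * (2 * TrS a B k - TrS a dl k - w * TrS a (DS a B) k)
            - (1 - w ^ 2) * (w' * TrS a B k + w * TrS a B' k)) := by
        simp only [TrS]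
        ring
      rw [this]
      linear_combination w' * e1 k - w' * w * e3 k - (1 - w ^ 2) * w * e2 k - w' * w * e4 k) 0
  have f1 := e1 0
  simp only [TrS, DS, dl, if_true, Nat.zero_sub, Au_zero, Cd_zero, Nat.cast_zero, zero_add] at hZ f1
  have c1 : (C (((2 : ℂ)) * ((1 - a : ℝ) : ℂ)) : ℂ⟦X⟧) = 2 * C ((1 - a : ℝ) : ℂ) := by
    rw [map_mul]
    rfl
  have c2 : (C (((0 : ℂ) - 1) * (a : ℂ)) : ℂ⟦X⟧) = - C (a : ℂ) := by
    simp
  rw [c1, c2] at hZ
  unfold KK
  rw [Derivation.leibniz, ← hB, ← hw']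
  simp only [smul_eq_mul]
  simp only [B'] at hZ
  linear_combination -hZ + 2 * w' * f1

lemma coeff_mul_eq_zero {p q : ℂ⟦X⟧} {n : ℕ} (h : ∀ j ≤ n, coeff j q = 0) : coeff n (p * q) = 0 := by
  rw [coeff_mul]
  apply Finset.sum_eq_zero
  intro x hx
  rw [h x.2 (by have := HasAntidiagonal.mem_antidiagonal.1 hx; omega), mul_zero]

lemma ode_unique (h0 : coeff 0 w = 0) {c D : ℂ⟦X⟧} (hD0 : coeff 0 D = 0)
    (h : (1 - w ^ 2) * d⁄dX ℂ D = c * D) : D = 0 := by
  have : ∀ n, coeff n D = 0 := by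
    intro n
    induction n using Nat.strong_induction_on with
    | _ n ih =>
      rcases n with _ | n
      · exact hD0
      · have h1 := congrArg (coeff n) h
        have h2 : coeff n (c * D) = 0 := coeff_mul_eq_zero (fun j hj => ih j (by omega))
        have h3 : coeff n (w * (w * d⁄dX ℂ D)) = 0 := by
          rw [coeff_conv h0 _ (le_refl n)]
          apply Finset.sum_eq_zero
          intro j hj
          have hj' := Finset.mem_range.1 hj
          rw [coeff_mul_eq_zero, mul_zero]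
          intro i hi
          rw [coeff_derivative, ih (i + 1) (by omega), zero_mul]
        rw [h2, sub_mul, one_mul, map_sub, pow_two, mul_assoc, h3, sub_zero, coeff_derivative] at h1
        have h4 : ((n : ℂ) + 1) ≠ 0 := by exact_mod_cast Nat.succ_ne_zero n
        exact (mul_eq_zero.1 h1).resolve_right h4
  ext n
  simp [this]

lemma coeff_X_mul_deriv (p : ℂ⟦X⟧) (n : ℕ) : coeff n (X * d⁄dX ℂ p) = n * coeff n p := by
  rcases n with _ | n
  · simp
  · rw [coeff_succ_X_mul, coeff_derivative]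
    push_cast
    ring

lemma euler_unique {c D : ℂ⟦X⟧} (hc : coeff 0 c = 0) (hD0 : coeff 0 D = 0)
    (h : X * d⁄dX ℂ D = c * D) : D = 0 := by
  have : ∀ n, coeff n D = 0 := by
    intro n
    induction n using Nat.strong_induction_on with
    | _ n ih =>
      rcases n with _ | n
      · exact hD0
      · have h1 := congrArg (coeff (n + 1)) h
        rw [coeff_X_mul_deriv, coeff_conv hc _ (le_refl (n + 1))] at h1
        rw [Finset.sum_eq_zero (fun j hj => by
          rw [ih j (Finset.mem_range.1 hj), mul_zero])] at h1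
        have h4 : ((n + 1 : ℕ) : ℂ) ≠ 0 := by exact_mod_cast Nat.succ_ne_zero n
        exact (mul_eq_zero.1 h1).resolve_left h4
  ext n
  simp [this]

/-- solution of a causal feedback equation -/
noncomputable def fixc (K : ℂ⟦X⟧) (S g : ℕ → ℂ) (n : ℕ) : ℂ :=
  S n + g n * ∑ j : Fin n, coeff (n - j.val) K * fixc K S g j.val
decreasing_by exact j.isLt

lemma exists_fix {K : ℂ⟦X⟧} (hK : coeff 0 K = 0) (S g : ℕ → ℂ) :
    ∃ Z : ℂ⟦X⟧, ∀ n, coeff n Z = S n + g n * coeff n (K * Z) := by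
  refine ⟨PowerSeries.mk (fixc K S g), fun n => ?_⟩
  rw [coeff_mk, fixc, coeff_conv hK _ (le_refl n), Finset.sum_range]
  simp only [coeff_mk]

end Pool.Agent.P.MP_bdc337_an
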