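import Pool.Agent.P.MP_bdc337_an.Taylor
import Pool.Agent.P.MP_bdc337_an.Series

set_option autoImplicit false

open Finset PowerSeries Metric Filter Topology

namespace Pool.Agent.P.MP_bdc337_an

lemma inj_of_re_pos {G P : ℂ → ℂ} (hG : ∀ z ∈ ball (0 : ℂ) 1, z ≠ 0 → HasDerivAt G ((P z - 1) / z) z)
    (hP : ∀ z ∈ ball (0 : ℂ) 1, 0 < (P z).re) :
    Set.InjOn (fun z => z * Complex.exp (G z)) (ball 0 1) := by
  intro z1 h1 z2 h2 h
  simp only at h
  by_cases e1 : z1 = 0
  · rw [e1, zero_mul] at h
    rw [e1]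
    exact ((mul_eq_zero.1 h.symm).resolve_right (Complex.exp_ne_zero _)).symm
  have e2 : z2 ≠ 0 := by
    intro e2
    rw [e2, zero_mul] at h
    exact e1 ((mul_eq_zero.1 h).resolve_right (Complex.exp_ne_zero _))
  have h' : Complex.exp (Complex.log z1 + G z1) = Complex.exp (Complex.log z2 + G z2) := by
    rw [Complex.exp_add, Complex.exp_add, Complex.exp_log e1, Complex.exp_log e2, h]
  obtain ⟨n, hn⟩ := Complex.exp_eq_exp_iff_exists_int.1 h'
  set u := Complex.log z1 with hu
  set v := Complex.log z2 + n * (2 * Real.pi * Complex.I) with hv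
  have eu : Complex.exp u = z1 := Complex.exp_log e1
  have ev : Complex.exp v = z2 := by
    rw [hv, Complex.exp_add, Complex.exp_log e2, Complex.exp_int_mul_two_pi_mul_I, mul_one]
  have ru : u.re < 0 := by
    have : ‖Complex.exp u‖ < 1 := by rw [eu]; simpa using h1
    rwa [Complex.norm_exp, Real.exp_lt_one_iff] at this
  have rv : v.re < 0 := by
    have : ‖Complex.exp v‖ < 1 := by rw [ev]; simpa using h2
    rwa [Complex.norm_exp, Real.exp_lt_one_iff] at this
  by_contra hne
  have hd : v - u ≠ 0 := by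
    intro h0
    apply hne
    rw [← eu, ← ev, sub_eq_zero.1 h0]
  let g : ℂ → ℂ := fun s => (starRingEnd ℂ) (v - u) *
    ((u + s * (v - u)) + G (Complex.exp (u + s * (v - u))))
  have hmem : ∀ t : ℝ, t ∈ Set.Icc (0 : ℝ) 1 → Complex.exp (u + t * (v - u)) ∈ ball (0 : ℂ) 1 := by
    intro t ht
    rw [mem_ball_zero_iff, Complex.norm_exp, Real.exp_lt_one_iff]
    simp only [Complex.add_re, Complex.re_ofReal_mul, Complex.sub_re]
    obtain ⟨t0, t1⟩ := ht
    rcases eq_or_lt_of_le t0 with h | h
    · rw [← h]; linarith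
    · nlinarith
  have hg : ∀ t : ℝ, t ∈ Set.Icc (0 : ℝ) 1 → HasDerivAt (fun t : ℝ => (g t).re)
      (‖v - u‖ ^ 2 * (P (Complex.exp (u + t * (v - u)))).re) t := by
    intro t ht
    have l1 : HasDerivAt (fun s : ℂ => u + s * (v - u)) (v - u) t := by
      simpa using ((hasDerivAt_id (t : ℂ)).mul_const (v - u)).const_add u
    have l2 := l1.cexp
    have l3 := (hG _ (hmem t ht) (Complex.exp_ne_zero _)).comp (t : ℂ) l2
    have l4 : HasDerivAt g ((starRingEnd ℂ) (v - u) * ((v - u) *
        P (Complex.exp (u + t * (v - u))))) t := by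
      refine ((l1.add l3).const_mul ((starRingEnd ℂ) (v - u))).congr_deriv ?_
      have := Complex.exp_ne_zero (u + t * (v - u))
      field_simp
      ring
    have l5 := l4.real_of_complex
    refine l5.congr_deriv ?_
    rw [← mul_assoc, mul_comm ((starRingEnd ℂ) (v - u)), Complex.mul_conj, Complex.normSq_eq_norm_sq,
      Complex.re_ofReal_mul]
  have hc : ContinuousOn (fun t : ℝ => (g t).re) (Set.Icc 0 1) := fun t ht =>
    (hg t ht).continuousAt.continuousWithinAt
  have hend : (fun t : ℝ => (g t).re) 0 = (fun t : ℝ => (g t).re) 1 := by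
    simp only [g, Complex.ofReal_zero, Complex.ofReal_one, zero_mul, one_mul, add_zero,
      add_sub_cancel, eu, ev]
    congr 2
    rw [hn, hv]
    ring
  obtain ⟨t, ht, hz⟩ := exists_hasDerivAt_eq_zero zero_lt_one hc hend
    (fun t ht => hg t (Set.Ioo_subset_Icc_self ht))
  have p1 := hP _ (hmem t (Set.Ioo_subset_Icc_self ht))
  have p2 : 0 < ‖v - u‖ ^ 2 := by positivity
  exact (mul_pos p2 p1).ne' hz

theorem extremal {a : ℝ} (h0 : 0 < a) (h1 : a ≤ 1) {N : ℕ} (hN : 1 ≤ N) :
    ∃ f : ℂ → ℂ, DifferentiableOn ℂ f (ball 0 1) ∧ Set.InjOn f (ball 0 1) ∧ f 0 = 0 ∧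
      deriv f 0 = 1 ∧
      (∀ z ∈ ball (0 : ℂ) 1, z ≠ 0 → |Complex.arg (z * deriv f z / f z)| < a * Real.pi / 2) ∧
      coeff (N + 1) (tay f) = ((2 * a / N : ℝ) : ℂ) := by
  have hnb : ball (0 : ℂ) 1 ∈ 𝓝 (0 : ℂ) := ball_mem_nhds 0 one_pos
  have hz0 : (0 : ℂ) ∈ ball (0 : ℂ) 1 := mem_ball_self one_pos
  have hpi := Real.pi_pos
  have hlt : ∀ z ∈ ball (0 : ℂ) 1, ‖z ^ N‖ < 1 := by
    intro z hz
    rw [norm_pow]
    exact pow_lt_one₀ (norm_nonneg _) (mem_ball_zero_iff.1 hz) (by omega)
  have hm : ∀ z ∈ ball (0 : ℂ) 1, 1 - z ^ N ≠ 0 := by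
    intro z hz h
    have := hlt z hz
    rw [← sub_eq_zero.1 h, norm_one] at this
    exact lt_irrefl _ this
  have hp : ∀ z ∈ ball (0 : ℂ) 1, 1 + z ^ N ≠ 0 := by
    intro z hz h
    have := hlt z hz
    rw [eq_neg_of_add_eq_zero_right h, norm_neg, norm_one] at this
    exact lt_irrefl _ this
  set p : ℂ → ℂ := fun z => (1 + z ^ N) / (1 - z ^ N) with hpdef
  have hpre : ∀ z ∈ ball (0 : ℂ) 1, 0 < (p z).re := by
    intro z hz
    have l := hlt z hz
    have l2 : ‖z ^ N‖ ^ 2 < 1 := by nlinarith [norm_nonneg (z ^ N)]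
    rw [Complex.sq_norm, Complex.normSq_apply] at l2
    simp only [hpdef, Complex.div_re]
    rw [← add_div]
    apply div_pos _ (Complex.normSq_pos.2 (hm z hz))
    simp only [Complex.add_re, Complex.one_re, Complex.sub_re, Complex.add_im, Complex.one_im,
      Complex.sub_im]
    nlinarith
  have hpder : ∀ z ∈ ball (0 : ℂ) 1,
      HasDerivAt p (2 * (N * z ^ (N - 1)) / (1 - z ^ N) ^ 2) z := by
    intro z hz
    have := ((hasDerivAt_pow N z).const_add 1).fun_div ((hasDerivAt_pow N z).const_sub 1) (hm z hz)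
    refine this.congr_deriv ?_
    ring
  set P : ℂ → ℂ := fun z => Complex.exp (a * Complex.log (p z)) with hPdef
  have hPder : ∀ z ∈ ball (0 : ℂ) 1,
      HasDerivAt P (P z * (a * (2 * (N * z ^ (N - 1)) / (1 - z ^ N) ^ 2 / p z))) z := fun z hz =>
    (((hpder z hz).clog (Or.inl (hpre z hz))).const_mul (a : ℂ)).cexp
  have hPd : DifferentiableOn ℂ P (ball 0 1) := fun z hz =>
    (hPder z hz).differentiableAt.differentiableWithinAt
  have hP0 : P 0 = 1 := by
    simp [hPdef, hpdef, zero_pow (by omega : N ≠ 0)]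
  have hParg : ∀ z ∈ ball (0 : ℂ) 1, |Complex.arg (P z)| < a * Real.pi / 2 := by
    intro z hz
    have l : |Complex.arg (p z)| < Real.pi / 2 :=
      Complex.abs_arg_lt_pi_div_two_iff.2 (Or.inl (hpre z hz))
    have l2 : |a * Complex.arg (p z)| < a * Real.pi / 2 := by
      rw [abs_mul, abs_of_pos h0]
      nlinarith
    have l3 : (a * Complex.log (p z)).im = a * Complex.arg (p z) := by
      rw [Complex.im_ofReal_mul, Complex.log_im]
    have l4 := abs_lt.1 l2
    rw [← Complex.log_im, hPdef]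
    simp only
    rw [Complex.log_exp (by rw [l3]; nlinarith [l4.1]) (by rw [l3]; nlinarith [l4.2]), l3]
    exact l2
  have hPre : ∀ z ∈ ball (0 : ℂ) 1, 0 < (P z).re := by
    intro z hz
    refine (Complex.abs_arg_lt_pi_div_two_iff.1 ?_).resolve_right (Complex.exp_ne_zero _)
    have := hParg z hz
    nlinarith
  set H := dslope P 0 with hH
  have hHd : DifferentiableOn ℂ H (ball 0 1) := (Complex.differentiableOn_dslope hnb).2 hPd
  have hzH : ∀ z, z * H z = P z - 1 := by
    intro z
    have := sub_smul_dslope P 0 z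
    rwa [hP0, sub_zero, smul_eq_mul] at this
  obtain ⟨G, hG0, hG⟩ := hHd.isExactOn_ball.with_val_at 0 0
  set F : ℂ → ℂ := fun z => Complex.exp (G z) with hF
  have hFder : ∀ z ∈ ball (0 : ℂ) 1, HasDerivAt F (F z * H z) z := fun z hz => (hG z hz).cexp
  have hFd : DifferentiableOn ℂ F (ball 0 1) := fun z hz =>
    (hFder z hz).differentiableAt.differentiableWithinAt
  have hF0 : F 0 = 1 := by simp [hF, hG0]
  have hfder : ∀ z ∈ ball (0 : ℂ) 1, HasDerivAt (fun z => z * F z) (F z * P z) z := by
    intro z hz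
    refine ((hasDerivAt_id' z).fun_mul (hFder z hz)).congr_deriv ?_
    linear_combination F z * hzH z
  refine ⟨fun z => z * F z, fun z hz => (hfder z hz).differentiableAt.differentiableWithinAt,
    inj_of_re_pos (P := P) (fun z hz hz' => ?_) hPre, by simp, ?_, fun z hz hz' => ?_, ?_⟩
  · refine (hG z hz).congr_deriv ?_
    rw [← hzH z]
    field_simp
  · rw [(hfder 0 hz0).deriv, hF0, hP0, one_mul]
  · rw [(hfder z hz).deriv]
    have : F z ≠ 0 := Complex.exp_ne_zero _
    have e : z * (F z * P z) / (z * F z) = P z := by field_simp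
    rw [e]
    exact hParg z hz
  · have aP : AnalyticAt ℂ P 0 := hPd.analyticAt hnb
    have aF : AnalyticAt ℂ F 0 := hFd.analyticAt hnb
    have ode : (fun z => deriv P z - z ^ (2 * N) * deriv P z) =ᶠ[𝓝 0]
        fun z => (2 * a * N : ℂ) * (z ^ (N - 1) * P z) := by
      filter_upwards [hnb] with z hz
      rw [(hPder z hz).deriv]
      have e1 := hm z hz
      have e2 := hp z hz
      simp only [hpdef]
      field_simp
      ring
    have t1 := tay_congr ode
    rw [tay_sub aP.deriv (by fun_prop), tay_mul (by fun_prop) aP.deriv, tay_pow,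
      tay_const_mul _ (by fun_prop), tay_mul (by fun_prop) aP, tay_pow, tay_deriv] at t1
    have t2 : X * d⁄dX ℂ (tay F) = (tay P - 1) * tay F := by
      have e : (fun z => z * deriv F z) =ᶠ[𝓝 0] fun z => (P z - 1) * F z := by
        filter_upwards [hnb] with z hz
        rw [(hFder z hz).deriv]
        linear_combination F z * hzH z
      have := tay_congr e
      rwa [tay_mul (f := fun z => z) analyticAt_id aF.deriv, tay_id, tay_deriv,
        tay_mul (by fun_prop) aF, tay_sub aP analyticAt_const, tay_const, map_one] at this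
    have c0 : coeff 0 (tay P - 1) = 0 := by
      rw [map_sub, coeff_zero_tay, hP0]
      simp
    have ck : ∀ k, k < N → ((k : ℂ) + 1) * coeff (k + 1) (tay P - 1)
        = if k = N - 1 then (2 * a * N : ℂ) else 0 := by
      intro k hk
      have := congrArg (coeff k) t1
      rw [map_sub, coeff_X_pow_mul', if_neg (by omega), sub_zero, coeff_derivative, coeff_C_mul,
        coeff_X_pow_mul'] at this
      rw [map_sub, coeff_one, if_neg (by omega), sub_zero, mul_comm, this]
      by_cases h : k = N - 1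
      · rw [if_pos h, if_pos (by omega), h, Nat.sub_self, coeff_zero_tay, hP0, mul_one]
      · rw [if_neg h, if_neg (by omega), mul_zero]
    have hN' : (N : ℂ) ≠ 0 := by exact_mod_cast (by omega : N ≠ 0)
    have cN : coeff N (tay P - 1) = 2 * (a : ℂ) := by
      have := ck (N - 1) (by omega)
      rw [if_pos rfl, Nat.sub_add_cancel hN, Nat.cast_sub hN] at this
      push_cast at this
      apply mul_left_cancel₀ hN'
      linear_combination this
    have t3 := congrArg (coeff N) t2
    rw [coeff_X_mul_deriv, coeff_conv c0 _ (le_refl N),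
      Finset.sum_eq_single 0 (fun j hj hj0 => ?_) (fun h => ?_), Nat.sub_zero, cN, coeff_zero_tay,
      hF0] at t3
    · rw [tay_mul (f := fun z => z) analyticAt_id aF, tay_id, coeff_succ_X_mul]
      push_cast
      field_simp
      linear_combination t3
    · have hj' := Finset.mem_range.1 hj
      have := ck (N - j - 1) (by omega)
      rw [if_neg (by omega), show N - j - 1 + 1 = N - j by omega] at this
      have h4 : (((N - j - 1 : ℕ) : ℂ) + 1) ≠ 0 := Nat.cast_add_one_ne_zero _
      rw [(mul_eq_zero.1 this).resolve_left h4, zero_mul]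
    · exact absurd (Finset.mem_range.2 (by omega)) h

end Pool.Agent.P.MP_bdc337_an
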