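import Pool.Agent.P.MP_bdc337_an.Series

set_option autoImplicit false

open Finset PowerSeries

namespace Pool.Agent.P.MP_bdc337_an

variable {a : ℝ} {w : ℂ⟦X⟧}

lemma coeff_zero_KK (a : ℝ) (h0 : coeff 0 w = 0) : coeff 0 (KK a w) = 0 :=
  coeff_zero_mul_left h0 _

lemma coeff_BB_mul (a : ℝ) (h0 : coeff 0 w = 0) (Z : ℂ⟦X⟧) (n k : ℕ) :
    coeff n (BB a w k * Z) = (if k = 0 then coeff n Z else 0)
      + Tr a (fun k => coeff n (w * (BB a w k * Z))) k := by
  have : BB a w k * Z = dl k * Z + TrS a (fun k => w * (BB a w k * Z)) k := by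
    conv_lhs => rw [BB_eq a h0 k]
    simp only [TrS]
    ring
  rw [this, map_add, coeff_TrS]
  congr 1
  unfold dl
  split_ifs <;> simp

lemma supp1 (a : ℝ) (h0 : coeff 0 w = 0) (Z : ℂ⟦X⟧) {n k : ℕ} (h : n ≤ k) :
    coeff n (w * (BB a w k * Z)) = 0 := by
  rw [coeff_conv h0 _ (le_refl n)]
  apply Finset.sum_eq_zero
  intro j hj
  have := Finset.mem_range.1 hj
  rw [mul_comm (BB a w k), coeff_mul_eq_zero, mul_zero]
  intro i hi
  exact coeff_BB_eq_zero a h0 i k (by omega)

lemma supp2 (a : ℝ) (h0 : coeff 0 w = 0) {Z : ℂ⟦X⟧} (hZ : coeff 0 Z = 0) {n k : ℕ}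
    (h : n ≤ k + 1) : coeff n (w * (BB a w k * Z)) = 0 := by
  rw [coeff_conv h0 _ (le_refl n)]
  apply Finset.sum_eq_zero
  intro j hj
  have := Finset.mem_range.1 hj
  rw [mul_comm (BB a w k), coeff_conv hZ _ (le_refl j), Finset.sum_eq_zero, mul_zero]
  intro i hi
  have := Finset.mem_range.1 hi
  rw [coeff_BB_eq_zero a h0 i k (by omega), mul_zero]

lemma coeff_mul_top {p q : ℂ⟦X⟧} {n : ℕ} (h : ∀ j < n, coeff j q = 0) :
    coeff n (p * q) = coeff 0 p * coeff n q := by
  rw [mul_comm, coeff_mul, Finset.Nat.sum_antidiagonal_eq_sum_range_succ_mk, Finset.sum_range_succ,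
    Finset.sum_eq_zero]
  · simp [mul_comm]
  · intro j hj
    rw [h j (Finset.mem_range.1 hj), zero_mul]

lemma coeff_zero_BB_mul (a : ℝ) (h0 : coeff 0 w = 0) (Z : ℂ⟦X⟧) (k : ℕ) :
    coeff 0 (BB a w k * Z) = if k = 0 then coeff 0 Z else 0 := by
  rw [coeff_BB_mul a h0]
  simp only [coeff_zero_mul_left h0, Tr, mul_zero, add_zero]

lemma Dd_succ (w : ℂ⟦X⟧) (n : ℕ) (x : ℂ⟦X⟧) :
    Dd w (n + 1) x = Dd w n x + (‖coeff n x‖ ^ 2 - ‖coeff n (w * x)‖ ^ 2) := by
  unfold Dd nsq
  rw [Finset.sum_range_succ, Finset.sum_range_succ]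
  ring

theorem large (h0 : 0 < a) (h1 : a ≤ 1 / 3) (hw : Contr w) {F : ℂ⟦X⟧} (hF0 : coeff 0 F = 1)
    (hF : X * d⁄dX ℂ F = (2 * C (a : ℂ) * KK a w) * F) {N : ℕ} (hN : 5 ≤ N) :
    ‖coeff N (KK a w * F)‖ ≤ 1 := by
  have w0 := hw.1
  set K := KK a w with hK
  have K0 : coeff 0 K = 0 := coeff_zero_KK a w0
  have ha : (a : ℂ) ≠ 0 := by exact_mod_cast h0.ne'
  obtain ⟨P, hP⟩ := exists_fix K0 (fun n => if n = 0 then 1 else 0)
    (fun n => ((a * (1 / n) : ℝ) : ℂ))
  obtain ⟨Y, hY'⟩ := exists_fix K0 (fun n => ((a * (1 / (N - n : ℝ)) : ℝ) : ℂ) * coeff n (K * P))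
    (fun n => ((a * (1 / (N - n : ℝ)) : ℝ) : ℂ))
  have hY : ∀ n, coeff n Y = ((a * (1 / (N - n : ℝ)) : ℝ) : ℂ) * coeff n (K * (P + Y)) := by
    intro n
    rw [hY' n, mul_add K, map_add]
    ring
  have P0 : coeff 0 P = 1 := by
    rw [hP 0, coeff_zero_mul_left K0]
    simp
  have Y0 : coeff 0 Y = 0 := by
    rw [hY 0, coeff_zero_mul_left K0, mul_zero]
  have hPode : X * d⁄dX ℂ P = C (a : ℂ) * (K * P) := by
    ext n
    rw [coeff_X_mul_deriv, coeff_C_mul]
    rcases n with _ | n
    · rw [coeff_zero_mul_left K0]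
      simp
    · rw [hP (n + 1), if_neg (by omega)]
      have : ((n : ℂ) + 1) ≠ 0 := by exact_mod_cast Nat.succ_ne_zero n
      push_cast
      field_simp
      ring
  have hFP : F = P * P := by
    have := euler_unique (c := 2 * C (a : ℂ) * K) (D := F - P * P)
      (by rw [mul_comm, coeff_zero_mul_left K0])
      (by rw [map_sub, hF0, coeff_zero_eq_constantCoeff_apply, map_mul,
            ← coeff_zero_eq_constantCoeff_apply, P0]; simp)
      (by
        rw [map_sub, Derivation.leibniz]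
        simp only [smul_eq_mul]
        linear_combination hF - 2 * P * hPode)
    exact sub_eq_zero.1 this
  have hm : coeff N (K * F) = coeff N (K * (P + Y)) := by
    have e1 : ∀ j < N, coeff j (C (N : ℂ) * Y - X * d⁄dX ℂ Y - C (a : ℂ) * (K * (P + Y))) = 0 := by
      intro j hj
      rw [map_sub, map_sub, coeff_C_mul, coeff_C_mul, coeff_X_mul_deriv, hY j]
      have : ((N : ℂ) - j) ≠ 0 := by
        have : ((N : ℝ) - j) ≠ 0 := by
          have : (j : ℝ) < N := by exact_mod_cast hj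
          linarith
        exact_mod_cast this
      push_cast
      field_simp
      ring
    have e2 := coeff_mul_top (p := P) e1
    have e3 : P * (C (N : ℂ) * Y - X * d⁄dX ℂ Y - C (a : ℂ) * (K * (P + Y)))
        = C (N : ℂ) * (Y * P) - X * d⁄dX ℂ (Y * P) - C (a : ℂ) * (K * F) := by
      rw [hFP, Derivation.leibniz]
      simp only [smul_eq_mul]
      linear_combination Y * hPode
    rw [e3, P0] at e2
    simp only [map_sub, coeff_C_mul, coeff_X_mul_deriv] at e2
    apply mul_left_cancel₀ ha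
    linear_combination -e2
  rw [hm]
  set S := P + Y with hS
  have S0 : coeff 0 S = 1 := by rw [hS, map_add, P0, Y0, add_zero]
  have hKZ : ∀ Z : ℂ⟦X⟧, w * (BB a w 0 * Z) = K * Z := by
    intro Z
    rw [hK, KK, mul_assoc]
  have hSn : ∀ n, 1 ≤ n → coeff n S = ((a * (1 / n) : ℝ) : ℂ) * (coeff n (K * S) - coeff n (K * Y))
      + ((a * (1 / (N - n : ℝ)) : ℝ) : ℂ) * coeff n (K * S) := by
    intro n hn
    have : coeff n (K * S) - coeff n (K * Y) = coeff n (K * P) := by
      rw [hS, mul_add, map_add]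
      ring
    rw [this]
    conv_lhs => rw [hS, map_add, hP n, hY n, if_neg (by omega)]
    ring
  let E : ℕ → ℝ := fun n => ∑ k ∈ range (N + 1),
    pw a k * (Dd w n (BB a w k * S) + Dd w n (BB a w k * Y))
  have E1 : E 1 = 1 := by
    simp only [E, Dd, nsq, range_one, sum_singleton, coeff_zero_mul_left w0,
      coeff_zero_BB_mul a w0, S0, Y0]
    rw [Finset.sum_range_succ']
    simp [pw_zero]
  have Estep : ∀ n, 1 ≤ n → 2 * n ≤ N → E (n + 1) ≤ E n := by
    intro n hn1 hn
    have hs := step h0 h1 hn1 hN hn (fun k => coeff n (w * (BB a w k * S)))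
      (fun k => coeff n (w * (BB a w k * Y))) (fun k hk => supp1 a w0 S hk)
      (fun k hk => supp2 a w0 Y0 hk)
    simp only [hKZ] at hs
    rw [← hSn n hn1, ← hY n] at hs
    simp only [← coeff_BB_mul a w0] at hs
    simp only [E, Dd_succ, mul_add, mul_sub, Finset.sum_add_distrib, Finset.sum_sub_distrib]
    linarith
  have Ele : ∀ n, 1 ≤ n → 2 * n ≤ N + 2 → E n ≤ 1 := by
    intro n hn
    induction n, hn using Nat.le_induction with
    | base => intro _; exact E1.le
    | succ n hn ih =>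
      intro h
      exact (Estep n hn (by omega)).trans (ih (by omega))
  let G : ℕ → ℕ → ℂ := fun M L => ∑ k ∈ range (N + 1), (pw a k : ℂ) *
    (beta w N M L (BB a w k * S) (BB a w k * S) - beta w N M L (BB a w k * Y) (BB a w k * Y))
  have key : ∀ (Z : ℂ⟦X⟧) (M L : ℕ), M + L = N →
      ∑ k ∈ range (N + 1), (pw a k : ℂ) * (beta w N (M + 1) L (BB a w k * Z) (BB a w k * Z)
        - beta w N M (L + 1) (BB a w k * Z) (BB a w k * Z))
      = coeff M Z * coeff L (K * Z) - coeff L Z * coeff M (K * Z) := by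
    intro Z M L hML
    have hsym := sym_sum h0 (fun k => coeff M (w * (BB a w k * Z)))
      (fun k => coeff L (w * (BB a w k * Z))) N
    simp only [supp1 a w0 Z (by omega : M ≤ N + 1), supp1 a w0 Z (by omega : L ≤ N + 1),
      zero_mul, mul_zero, sub_self] at hsym
    have : ∀ k ∈ range (N + 1), (pw a k : ℂ) * (beta w N (M + 1) L (BB a w k * Z) (BB a w k * Z)
        - beta w N M (L + 1) (BB a w k * Z) (BB a w k * Z))
        = (if k = 0 then coeff M Z * coeff L (K * Z) - coeff L Z * coeff M (K * Z) else 0)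
          + (pw a k : ℂ) * (Tr a (fun k => coeff M (w * (BB a w k * Z))) k
              * coeff L (w * (BB a w k * Z))
            - coeff M (w * (BB a w k * Z)) * Tr a (fun k => coeff L (w * (BB a w k * Z))) k) := by
      intro k _
      rw [beta_step w0 hML, coeff_BB_mul a w0 Z M k, coeff_BB_mul a w0 Z L k]
      by_cases hk : k = 0
      · subst hk
        simp only [if_true, pw_zero, hKZ]
        push_cast
        ring
      · simp only [if_neg hk]
        ring
    rw [Finset.sum_congr rfl this, Finset.sum_add_distrib, hsym, Finset.sum_range_succ']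
    simp
  have Gstep : ∀ M L, 1 ≤ M → 1 ≤ L → M + L = N → G (M + 1) L = G M (L + 1) := by
    intro M L hM hL hML
    have k1 := key S M L hML
    have k2 := key Y M L hML
    have hNM : (N : ℝ) - M = L := by rw [← hML]; push_cast; ring
    have hNL : (N : ℝ) - L = M := by rw [← hML]; push_cast; ring
    rw [hSn M hM, hSn L hL, hNM, hNL] at k1
    rw [hY M, hY L, hNM, hNL] at k2
    rw [← sub_eq_zero]
    simp only [G, mul_sub, Finset.sum_sub_distrib] at k1 k2 ⊢
    linear_combination k1 - k2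
  have GN : G N 1 = coeff N (K * S) := by
    simp only [G, beta_last w0, coeff_zero_BB_mul a w0, S0, Y0]
    rw [Finset.sum_range_succ']
    simp [pw_zero, hKZ]
  have Gall : ∀ L M, 1 ≤ M → M + L = N → G M (L + 1) = coeff N (K * S) := by
    intro L
    induction L with
    | zero =>
      intro M _ h
      rw [← GN, ← h]
      rfl
    | succ L ih =>
      intro M hM h
      rw [← Gstep M (L + 1) hM (by omega) h]
      exact ih (M + 1) (by omega) (by omega)
  have hM1 : 1 ≤ (N + 1) / 2 := by omega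
  rw [← Gall (N / 2) ((N + 1) / 2) hM1 (by omega)]
  have b1 := Ele ((N + 1) / 2) hM1 (by omega)
  have b2 := Ele (N / 2 + 1) (by omega) (by omega)
  have b3 : 2 * ‖G ((N + 1) / 2) (N / 2 + 1)‖ ≤ E ((N + 1) / 2) + E (N / 2 + 1) := by
    simp only [G, E]
    rw [← Finset.sum_add_distrib]
    refine le_trans (mul_le_mul_of_nonneg_left (norm_sum_le _ _) (by norm_num)) ?_
    rw [Finset.mul_sum]
    apply Finset.sum_le_sum
    intro k _
    have hp := pw_pos h0 h1 k
    have m1 := mm hw (N := N) (M := (N + 1) / 2) (L := N / 2 + 1) (by omega) hM1 (by omega)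
      (BB a w k * S) (BB a w k * S)
    have m2 := mm hw (N := N) (M := (N + 1) / 2) (L := N / 2 + 1) (by omega) hM1 (by omega)
      (BB a w k * Y) (BB a w k * Y)
    have m3 := norm_sub_le (beta w N ((N + 1) / 2) (N / 2 + 1) (BB a w k * S) (BB a w k * S))
      (beta w N ((N + 1) / 2) (N / 2 + 1) (BB a w k * Y) (BB a w k * Y))
    rw [norm_mul, Complex.norm_real, Real.norm_of_nonneg hp.le]
    nlinarith
  linarith

end Pool.Agent.P.MP_bdc337_an
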