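import Mathlib

set_option autoImplicit false

namespace Pool.Agent.P.MP_bdc337_an

/-- the quadratic form of one step -/
def Qf (a ch chp pe po f0 f1 g0 g1 : ℝ) : ℝ :=
  a * (1 - a) * ((f1 - f0) ^ 2 + (g1 - g0) ^ 2) + pe * (f0 ^ 2 + g0 ^ 2) + po * (f1 ^ 2 + g1 ^ 2)
    - ((a * ch * (f0 - g0) + a * chp * f0) ^ 2
      + 2 * (a * ch * (f0 - g0) + a * chp * f0) * (a * f0 + (1 - a) * f1)
      + (a * chp * f0) ^ 2 + 2 * (a * chp * f0) * (a * g0 + (1 - a) * g1))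

lemma conc_a {a ch chp pe po f0 f1 g0 g1 : ℝ} (h0 : 0 ≤ a) (h1 : a ≤ 1 / 3) (hpe : 0 ≤ pe)
    (hpo : 0 ≤ po) (h : 0 ≤ Qf (1 / 3) ch chp pe po f0 f1 g0 g1) :
    0 ≤ Qf a ch chp pe po f0 f1 g0 g1 := by
  have e : Qf a ch chp pe po f0 f1 g0 g1
      = (1 - 3 * a) * (pe * (f0 ^ 2 + g0 ^ 2) + po * (f1 ^ 2 + g1 ^ 2))
        + 3 * a * Qf (1 / 3) ch chp pe po f0 f1 g0 g1
        + a * (1 / 3 - a) * (((f0 - f1) + (ch * (f0 - g0) + chp * f0)) ^ 2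
          + ((g0 - g1) + chp * f0) ^ 2) := by
    unfold Qf
    ring
  rw [e]
  have h2 : 0 ≤ 1 - 3 * a := by linarith
  have h3 : 0 ≤ 1 / 3 - a := by linarith
  positivity

lemma conc_chp {a ch chp m pe po f0 f1 g0 g1 : ℝ} (h0 : 0 ≤ chp) (h1 : chp ≤ m) (hm : 0 < m)
    (h : 0 ≤ Qf a ch 0 pe po f0 f1 g0 g1) (h' : 0 ≤ Qf a ch m pe po f0 f1 g0 g1) :
    0 ≤ Qf a ch chp pe po f0 f1 g0 g1 := by
  have e : m * Qf a ch chp pe po f0 f1 g0 g1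
      = (m - chp) * Qf a ch 0 pe po f0 f1 g0 g1 + chp * Qf a ch m pe po f0 f1 g0 g1
        + chp * (m - chp) * m * (2 * (a * f0) ^ 2) := by
    unfold Qf
    ring
  have h2 : 0 ≤ m - chp := by linarith
  have h3 : 0 ≤ m * Qf a ch chp pe po f0 f1 g0 g1 := by
    rw [e]
    positivity
  exact nonneg_of_mul_nonneg_right h3 hm

lemma conc_t {a ch chp t pe po f0 f1 g0 g1 : ℝ} (ha0 : 0 ≤ a) (ha1 : a ≤ 1) (h0 : 0 ≤ t)
    (h1 : t ≤ 1) (h : 0 ≤ Qf a ch chp pe po f0 f1 g0 g1) :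
    0 ≤ Qf a (t * ch) (t * chp) (t * pe) (t * po) f0 f1 g0 g1 := by
  have e : Qf a (t * ch) (t * chp) (t * pe) (t * po) f0 f1 g0 g1
      = (1 - t) * (a * (1 - a) * ((f1 - f0) ^ 2 + (g1 - g0) ^ 2))
        + t * Qf a ch chp pe po f0 f1 g0 g1
        + t * (1 - t) * ((a * ch * (f0 - g0) + a * chp * f0) ^ 2 + (a * chp * f0) ^ 2) := by
    unfold Qf
    ring
  rw [e]
  have h2 : 0 ≤ 1 - t := by linarith
  have h3 : 0 ≤ 1 - a := by linarith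
  positivity

lemma quad1 {a chp : ℝ} (h0 : 0 ≤ a) (h1 : a ≤ 1 / 3) (hc0 : 0 ≤ chp) (hc1 : chp ≤ 1 / 4)
    (f0 : ℝ) : 0 ≤ Qf a 1 chp (10 / 27) 1 f0 0 0 0 := by
  apply conc_a h0 h1 (by norm_num) (by norm_num)
  apply conc_chp hc0 hc1 (by norm_num)
  · unfold Qf
    nlinarith [sq_nonneg f0]
  · unfold Qf
    nlinarith [sq_nonneg f0]

lemma quad2 {a chp : ℝ} (h0 : 0 ≤ a) (h1 : a ≤ 1 / 3) (hc0 : 0 ≤ chp) (hc1 : chp ≤ 1 / 3)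
    (f0 f1 g0 g1 : ℝ) : 0 ≤ Qf a (1 / 2) chp (10 / 27) (4 / 9) f0 f1 g0 g1 := by
  apply conc_a h0 h1 (by norm_num) (by norm_num)
  apply conc_chp hc0 hc1 (by norm_num)
  · have : Qf (1 / 3) (1 / 2) 0 (10 / 27) (4 / 9) f0 f1 g0 g1
        = (2/3)*((-1/2)*f0 + f1 + (1/6)*g0)^2 + (2/3)*((-1/3)*g0 + g1)^2
          + (17/36)*((5/17)*f0 + g0)^2 + (113/459)*f0^2 := by
      unfold Qf
      ring
    rw [this]
    positivity
  · have : Qf (1 / 3) (1 / 2) (1 / 3) (10 / 27) (4 / 9) f0 f1 g0 g1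
        = (2/3)*((-11/18)*f0 + f1 + (1/6)*g0)^2 + (2/3)*((-1/9)*f0 + (-1/3)*g0 + g1)^2
          + (17/36)*((35/153)*f0 + g0)^2 + (446/12393)*f0^2 := by
      unfold Qf
      ring
    rw [this]
    positivity

lemma quad3 {a chp : ℝ} (h0 : 0 ≤ a) (h1 : a ≤ 1 / 3) (hc0 : 0 ≤ chp) (hc1 : chp ≤ 1 / 3)
    (f0 f1 g0 g1 : ℝ) : 0 ≤ Qf a (1 / 3) chp (100 / 471) (4 / 9) f0 f1 g0 g1 := by
  apply conc_a h0 h1 (by norm_num) (by norm_num)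
  apply conc_chp hc0 hc1 (by norm_num)
  · have : Qf (1 / 3) (1 / 3) 0 (100 / 471) (4 / 9) f0 f1 g0 g1
        = (2/3)*((-4/9)*f0 + f1 + (1/9)*g0)^2 + (2/3)*((-1/3)*g0 + g1)^2
          + (12967/38151)*((3140/12967)*f0 + g0)^2 + (10800991/54967113)*f0^2 := by
      unfold Qf
      ring
    rw [this]
    positivity
  · have : Qf (1 / 3) (1 / 3) (1 / 3) (100 / 471) (4 / 9) f0 f1 g0 g1
        = (2/3)*((-5/9)*f0 + f1 + (1/9)*g0)^2 + (2/3)*((-1/9)*f0 + (-1/3)*g0 + g1)^2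
          + (12967/38151)*((1570/12967)*f0 + g0)^2 + (2812669/494704017)*f0^2 := by
      unfold Qf
      ring
    rw [this]
    positivity

lemma quad4 {a chp : ℝ} (h0 : 0 ≤ a) (h1 : a ≤ 1 / 3) (hc0 : 0 ≤ chp) (hc1 : chp ≤ 1 / 4)
    (f0 f1 g0 g1 : ℝ) : 0 ≤ Qf a (1 / 4) chp (3 / 16) (5 / 21) f0 f1 g0 g1 := by
  apply conc_a h0 h1 (by norm_num) (by norm_num)
  apply conc_chp hc0 hc1 (by norm_num)
  · have : Qf (1 / 3) (1 / 4) 0 (3 / 16) (5 / 21) f0 f1 g0 g1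
        = (29/63)*((-35/58)*f0 + f1 + (7/58)*g0)^2 + (29/63)*((-14/29)*g0 + g1)^2
          + (67/232)*((95/402)*f0 + g0)^2 + (91475/559584)*f0^2 := by
      unfold Qf
      ring
    rw [this]
    positivity
  · have : Qf (1 / 3) (1 / 4) (1 / 4) (3 / 16) (5 / 21) f0 f1 g0 g1
        = (29/63)*((-21/29)*f0 + f1 + (7/58)*g0)^2 + (29/63)*((-7/58)*f0 + (-14/29)*g0 + g1)^2
          + (67/232)*((19/201)*f0 + g0)^2 + (925/69948)*f0^2 := by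
      unfold Qf
      ring
    rw [this]
    positivity

lemma quadn {a n m : ℝ} (h0 : 0 ≤ a) (h1 : a ≤ 1 / 3) (hn : 4 ≤ n) (hm : n ≤ m)
    (f0 f1 g0 g1 : ℝ) :
    0 ≤ Qf a (1 / n) (1 / m) (1 / (4 / 3 * n)) (1 / (21 / 20 * n)) f0 f1 g0 g1 := by
  have hn0 : 0 < n := by linarith
  have hm0 : 0 < m := by linarith
  have h := conc_t (t := 4 / n) h0 (by linarith) (by positivity)
    (by rw [div_le_one hn0]; exact hn)
    (quad4 (chp := n / (4 * m)) h0 h1 (by positivity)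
      (by rw [div_le_div_iff₀ (by positivity) (by norm_num)]; linarith) f0 f1 g0 g1)
  convert h using 2 <;> field_simp <;> ring

/-- complex version -/
lemma Qf_complex {a ch chp pe po : ℝ} (f0 f1 g0 g1 : ℂ)
    (hre : 0 ≤ Qf a ch chp pe po f0.re f1.re g0.re g1.re)
    (him : 0 ≤ Qf a ch chp pe po f0.im f1.im g0.im g1.im) :
    ‖((a * ch : ℝ) : ℂ) * (f0 - g0) + ((a * chp : ℝ) : ℂ) * f0 + (((1 - a : ℝ) : ℂ) * f1 + (a : ℂ) * f0)‖ ^ 2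
      - ‖((1 - a : ℝ) : ℂ) * f1 + (a : ℂ) * f0‖ ^ 2
      + (‖((a * chp : ℝ) : ℂ) * f0 + (((1 - a : ℝ) : ℂ) * g1 + (a : ℂ) * g0)‖ ^ 2
      - ‖((1 - a : ℝ) : ℂ) * g1 + (a : ℂ) * g0‖ ^ 2)
    ≤ (a * (1 - a) * ‖f1 - f0‖ ^ 2 + pe * ‖f0‖ ^ 2 + po * ‖f1‖ ^ 2)
      + (a * (1 - a) * ‖g1 - g0‖ ^ 2 + pe * ‖g0‖ ^ 2 + po * ‖g1‖ ^ 2) := by
  simp only [Complex.sq_norm, Complex.normSq_apply, Complex.add_re, Complex.add_im,
    Complex.mul_re, Complex.mul_im, Complex.sub_re, Complex.sub_im, Complex.ofReal_re,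
    Complex.ofReal_im]
  unfold Qf at hre him
  nlinarith [hre, him]

end Pool.Agent.P.MP_bdc337_an
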