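import Pool.Agent.P.MP_bdc337_an.Large

set_option autoImplicit false

open Finset PowerSeries

namespace Pool.Agent.P.MP_bdc337_an

variable {a : ℝ} {w : ℂ⟦X⟧}

lemma cm0 (p q : ℂ⟦X⟧) : coeff 0 (p * q) = coeff 0 p * coeff 0 q := by
  simp [coeff_mul]

lemma cm1 (p q : ℂ⟦X⟧) : coeff 1 (p * q) = coeff 0 p * coeff 1 q + coeff 1 p * coeff 0 q := by
  simp [coeff_mul, Finset.Nat.sum_antidiagonal_eq_sum_range_succ_mk, Finset.sum_range_succ]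

lemma cm2 (p q : ℂ⟦X⟧) : coeff 2 (p * q)
    = coeff 0 p * coeff 2 q + coeff 1 p * coeff 1 q + coeff 2 p * coeff 0 q := by
  simp [coeff_mul, Finset.Nat.sum_antidiagonal_eq_sum_range_succ_mk, Finset.sum_range_succ]

lemma cm3 (p q : ℂ⟦X⟧) : coeff 3 (p * q)
    = coeff 0 p * coeff 3 q + coeff 1 p * coeff 2 q + coeff 2 p * coeff 1 q
      + coeff 3 p * coeff 0 q := by
  simp [coeff_mul, Finset.Nat.sum_antidiagonal_eq_sum_range_succ_mk, Finset.sum_range_succ]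

lemma cm4 (p q : ℂ⟦X⟧) : coeff 4 (p * q)
    = coeff 0 p * coeff 4 q + coeff 1 p * coeff 3 q + coeff 2 p * coeff 2 q
      + coeff 3 p * coeff 1 q + coeff 4 p * coeff 0 q := by
  simp [coeff_mul, Finset.Nat.sum_antidiagonal_eq_sum_range_succ_mk, Finset.sum_range_succ]

lemma KK_coeffs (a : ℝ) (h0 : coeff 0 w = 0) :
    coeff 1 (KK a w) = coeff 1 w ∧
    coeff 2 (KK a w) = coeff 2 w + a * coeff 1 w ^ 2 ∧
    coeff 3 (KK a w) = coeff 3 w + 2 * a * coeff 1 w * coeff 2 w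
      + (1 + 2 * a ^ 2) / 3 * coeff 1 w ^ 3 ∧
    coeff 4 (KK a w) = coeff 4 w + a * (2 * coeff 1 w * coeff 3 w + coeff 2 w ^ 2)
      + (1 + 2 * a ^ 2) * coeff 1 w ^ 2 * coeff 2 w + a * (2 + a ^ 2) / 3 * coeff 1 w ^ 4 := by
  have h := KK_ode a h0
  have K0 := coeff_zero_KK a h0
  have h' : d⁄dX ℂ (KK a w) = w * (w * d⁄dX ℂ (KK a w)) + d⁄dX ℂ w
      + C (2 * a : ℂ) * (KK a w * d⁄dX ℂ w) := by
    have : (C (2 * a : ℂ) : ℂ⟦X⟧) = 2 * C (a : ℂ) := by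
      rw [map_mul]
      rfl
    rw [this]
    linear_combination h
  have e0 := congrArg (coeff 0) h'
  have e1 := congrArg (coeff 1) h'
  have e2 := congrArg (coeff 2) h'
  have e3 := congrArg (coeff 3) h'
  simp only [map_add, coeff_C_mul, cm0, cm1, cm2, cm3, coeff_derivative, h0, K0] at e0 e1 e2 e3
  norm_num at e0 e1 e2 e3
  have k1 : coeff 1 (KK a w) = coeff 1 w := e0
  have k2 : coeff 2 (KK a w) = coeff 2 w + a * coeff 1 w ^ 2 := by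
    rw [k1] at e1
    linear_combination e1 / 2
  have k3 : coeff 3 (KK a w) = coeff 3 w + 2 * a * coeff 1 w * coeff 2 w
      + (1 + 2 * a ^ 2) / 3 * coeff 1 w ^ 3 := by
    rw [k1, k2] at e2
    linear_combination e2 / 3
  refine ⟨k1, k2, k3, ?_⟩
  rw [k1, k2, k3] at e3
  linear_combination e3 / 4

lemma V_coeffs (a : ℝ) (h0 : coeff 0 w = 0) {F : ℂ⟦X⟧} (hF0 : coeff 0 F = 1)
    (hF : X * d⁄dX ℂ F = (2 * C (a : ℂ) * KK a w) * F) :
    coeff 1 (KK a w * F) = coeff 1 w ∧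
    coeff 2 (KK a w * F) = coeff 2 w + 3 * a * coeff 1 w ^ 2 ∧
    coeff 3 (KK a w * F) = coeff 3 w + 5 * a * coeff 1 w * coeff 2 w
      + (1 + 17 * a ^ 2) / 3 * coeff 1 w ^ 3 ∧
    coeff 4 (KK a w * F) = coeff 4 w + 14 * a / 3 * coeff 1 w * coeff 3 w + 2 * a * coeff 2 w ^ 2
      + (1 + 40 * a ^ 2 / 3) * coeff 1 w ^ 2 * coeff 2 w
      + (14 * a / 9 + 76 * a ^ 3 / 9) * coeff 1 w ^ 4 := by
  obtain ⟨k1, k2, k3, k4⟩ := KK_coeffs a h0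
  have K0 := coeff_zero_KK a h0
  have h' : X * d⁄dX ℂ F = C (2 * a : ℂ) * (KK a w * F) := by
    have : (C (2 * a : ℂ) : ℂ⟦X⟧) = 2 * C (a : ℂ) := by
      rw [map_mul]
      rfl
    rw [this, hF]
    ring
  have e1 := congrArg (coeff 1) h'
  have e2 := congrArg (coeff 2) h'
  have e3 := congrArg (coeff 3) h'
  rw [coeff_X_mul_deriv, coeff_C_mul] at e1 e2 e3
  push_cast at e1 e2 e3
  have v1 : coeff 1 (KK a w * F) = coeff 1 w := by
    rw [cm1, K0, k1, hF0]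
    ring
  have f1 : coeff 1 F = 2 * a * coeff 1 w := by
    rw [v1] at e1
    linear_combination e1
  have v2 : coeff 2 (KK a w * F) = coeff 2 w + 3 * a * coeff 1 w ^ 2 := by
    rw [cm2, K0, k1, k2, hF0, f1]
    ring
  have f2 : coeff 2 F = a * (coeff 2 w + 3 * a * coeff 1 w ^ 2) := by
    rw [v2] at e2
    linear_combination e2 / 2
  have v3 : coeff 3 (KK a w * F) = coeff 3 w + 5 * a * coeff 1 w * coeff 2 w
      + (1 + 17 * a ^ 2) / 3 * coeff 1 w ^ 3 := by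
    rw [cm3, K0, k1, k2, k3, hF0, f1, f2]
    ring
  have f3 : coeff 3 F = 2 * a / 3 * (coeff 3 w + 5 * a * coeff 1 w * coeff 2 w
      + (1 + 17 * a ^ 2) / 3 * coeff 1 w ^ 3) := by
    rw [v3] at e3
    linear_combination e3 / 3
  refine ⟨v1, v2, v3, ?_⟩
  rw [cm4, K0, k1, k2, k3, k4, hF0, f1, f2, f3]
  ring

/-- quadratic test series -/
noncomputable def tp (x y : ℂ) : ℂ⟦X⟧ :=
  PowerSeries.mk fun k => if k = 0 then 1 else if k = 1 then x else y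

lemma tp0 (x y : ℂ) : coeff 0 (tp x y) = 1 := by simp [tp]
lemma tp1 (x y : ℂ) : coeff 1 (tp x y) = x := by simp [tp]
lemma tp2 (x y : ℂ) : coeff 2 (tp x y) = y := by simp [tp]

lemma Dd1 (h0 : coeff 0 w = 0) (x y : ℂ) : Dd w 1 (tp x y) = 1 := by
  simp only [Dd, nsq, range_one, sum_singleton, tp0, cm0, h0]
  simp

lemma Dd2 (h0 : coeff 0 w = 0) (x y : ℂ) :
    Dd w 2 (tp x y) = 1 + ‖x‖ ^ 2 - ‖coeff 1 w‖ ^ 2 := by
  rw [Dd_succ, Dd1 h0, cm1, tp0, tp1, h0]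
  simp only [zero_mul, mul_one, zero_add]
  ring

lemma Dd3 (h0 : coeff 0 w = 0) (x y : ℂ) :
    Dd w 3 (tp x y) = 1 + ‖x‖ ^ 2 - ‖coeff 1 w‖ ^ 2 + ‖y‖ ^ 2
      - ‖coeff 1 w * x + coeff 2 w‖ ^ 2 := by
  rw [Dd_succ, Dd2 h0, cm2, tp0, tp1, tp2, h0]
  simp only [zero_mul, mul_one, zero_add]
  ring

lemma w1_le (hw : Contr w) : ‖coeff 1 w‖ ≤ 1 := by
  have h := mm hw (N := 1) (M := 1) (L := 1) rfl le_rfl le_rfl (tp 0 0) (tp 0 0)
  rw [Dd1 hw.1] at h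
  simp only [beta, range_one, sum_singleton, tp0] at h
  simp only [Nat.sub_zero, mul_one] at h
  linarith

lemma norm_real_mul {x : ℝ} (hx : 0 ≤ x) (z : ℂ) : ‖(x : ℂ) * z‖ = x * ‖z‖ := by
  rw [norm_mul, Complex.norm_real, Real.norm_of_nonneg hx]

theorem small (h0 : 0 < a) (h1 : a ≤ 1 / 3) (hw : Contr w) {F : ℂ⟦X⟧} (hF0 : coeff 0 F = 1)
    (hF : X * d⁄dX ℂ F = (2 * C (a : ℂ) * KK a w) * F) {N : ℕ} (hN1 : 1 ≤ N) (hN : N ≤ 4) :
    ‖coeff N (KK a w * F)‖ ≤ 1 := by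
  have w0 := hw.1
  obtain ⟨v1, v2, v3, v4⟩ := V_coeffs a w0 hF0 hF
  have t1 := w1_le hw
  have t0 := norm_nonneg (coeff 1 w)
  set t := ‖coeff 1 w‖ with ht
  have a2 : a ^ 2 ≤ 1 / 9 := by nlinarith
  interval_cases N
  · rw [v1]
    exact t1
  · have h := mm hw (N := 2) (M := 1) (L := 2) rfl le_rfl (by norm_num) (tp 0 0)
      (tp (((3 * a : ℝ) : ℂ) * coeff 1 w) 0)
    rw [Dd1 w0, Dd2 w0, norm_real_mul (by positivity)] at h
    have e : beta w 2 1 2 (tp 0 0) (tp (((3 * a : ℝ) : ℂ) * coeff 1 w) 0)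
        = coeff 2 (KK a w * F) := by
      simp only [beta, Finset.sum_range_succ, range_zero, sum_empty, tp0, tp1, v2]
      push_cast
      ring
    rw [e, ← ht] at h
    nlinarith [mul_nonneg (sub_nonneg.2 a2) (sq_nonneg t)]
  · have h := mm hw (N := 3) (M := 2) (L := 2) rfl (by norm_num) (by norm_num)
      (tp (((5 * a / 2 : ℝ) : ℂ) * coeff 1 w) 0) (tp (((5 * a / 2 : ℝ) : ℂ) * coeff 1 w) 0)
    rw [Dd2 w0, norm_real_mul (by positivity)] at h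
    have e : coeff 3 (KK a w * F) = beta w 3 2 2 (tp (((5 * a / 2 : ℝ) : ℂ) * coeff 1 w) 0)
        (tp (((5 * a / 2 : ℝ) : ℂ) * coeff 1 w) 0)
        + ((1 / 3 - 7 * a ^ 2 / 12 : ℝ) : ℂ) * coeff 1 w ^ 3 := by
      simp only [beta, Finset.sum_range_succ, range_zero, sum_empty, tp0, tp1, v3]
      push_cast
      ring
    have hc : 0 ≤ 1 / 3 - 7 * a ^ 2 / 12 := by linarith
    have n1 := norm_add_le (beta w 3 2 2 (tp (((5 * a / 2 : ℝ) : ℂ) * coeff 1 w) 0)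
        (tp (((5 * a / 2 : ℝ) : ℂ) * coeff 1 w) 0))
        (((1 / 3 - 7 * a ^ 2 / 12 : ℝ) : ℂ) * coeff 1 w ^ 3)
    rw [← e, norm_real_mul hc, norm_pow, ← ht] at n1
    rw [← ht] at h
    have t3 : t ^ 3 ≤ t ^ 2 := by nlinarith
    have := mul_le_mul_of_nonneg_left t3 hc
    nlinarith [mul_nonneg (sub_nonneg.2 a2) (sq_nonneg t)]
  · have hmu : 0 < 1 + t ^ 2 := by positivity
    set y : ℂ := ((2 * a : ℝ) : ℂ) * coeff 2 w + ((1 + 67 * a ^ 2 / 12 : ℝ) : ℂ) * coeff 1 w ^ 2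
      with hy
    have h := mm_weighted hw (N := 4) (M := 2) (L := 3) rfl (by norm_num) (by norm_num)
      (tp (((3 * a / 2 : ℝ) : ℂ) * coeff 1 w) 0) (tp (((19 * a / 6 : ℝ) : ℂ) * coeff 1 w) y) hmu
    rw [Dd2 w0, Dd3 w0, norm_real_mul (by positivity), norm_real_mul (by positivity), ← ht] at h
    have e : coeff 4 (KK a w * F) = beta w 4 2 3 (tp (((3 * a / 2 : ℝ) : ℂ) * coeff 1 w) 0)
        (tp (((19 * a / 6 : ℝ) : ℂ) * coeff 1 w) y)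
        + ((a / 18 + 5 * a ^ 3 / 72 : ℝ) : ℂ) * coeff 1 w ^ 4 := by
      simp only [beta, Finset.sum_range_succ, range_zero, sum_empty, tp0, tp1, tp2, v4, hy]
      push_cast
      ring
    have hc : 0 ≤ a / 18 + 5 * a ^ 3 / 72 := by positivity
    have hc2 : a / 18 + 5 * a ^ 3 / 72 ≤ 1 / 45 := by nlinarith
    have n1 := norm_add_le (beta w 4 2 3 (tp (((3 * a / 2 : ℝ) : ℂ) * coeff 1 w) 0)
        (tp (((19 * a / 6 : ℝ) : ℂ) * coeff 1 w) y))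
        (((a / 18 + 5 * a ^ 3 / 72 : ℝ) : ℂ) * coeff 1 w ^ 4)
    rw [← e, norm_real_mul hc, norm_pow, ← ht] at n1
    set u : ℂ := coeff 1 w * (((19 * a / 6 : ℝ) : ℂ) * coeff 1 w) + coeff 2 w with hu
    have e2 : y = ((2 * a : ℝ) : ℂ) * u + ((1 - 3 * a ^ 2 / 4 : ℝ) : ℂ) * coeff 1 w ^ 2 := by
      rw [hy, hu]
      push_cast
      ring
    have n2 := norm_add_le (((2 * a : ℝ) : ℂ) * u) (((1 - 3 * a ^ 2 / 4 : ℝ) : ℂ) * coeff 1 w ^ 2)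
    rw [← e2, norm_real_mul (by positivity), norm_real_mul (by linarith), norm_pow, ← ht] at n2
    have u0 := norm_nonneg u
    have n3 : ‖y‖ ≤ 2 / 3 * ‖u‖ + t ^ 2 - 3 / 4 * a ^ 2 * t ^ 2 - (2 / 3 - 2 * a) * ‖u‖ := by
      linarith
    have n4 : ‖y‖ ^ 2 - ‖u‖ ^ 2 ≤ 121 / 80 * t ^ 4 := by
      have y0 := norm_nonneg y
      have n5 : ‖y‖ ^ 2 ≤ (2 * a * ‖u‖ + (1 - 3 * a ^ 2 / 4) * t ^ 2) ^ 2 :=
        pow_le_pow_left₀ y0 n2 2
      have hp : 0 < 1 - 4 * a ^ 2 := by linarith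
      have n6 : (1 - 4 * a ^ 2) * ((2 * a * ‖u‖ + (1 - 3 * a ^ 2 / 4) * t ^ 2) ^ 2 - ‖u‖ ^ 2)
          ≤ (1 - 3 * a ^ 2 / 4) ^ 2 * t ^ 4 := by
        nlinarith [sq_nonneg ((1 - 4 * a ^ 2) * ‖u‖ - 2 * a * (1 - 3 * a ^ 2 / 4) * t ^ 2)]
      have n7 : (1 - 3 * a ^ 2 / 4) ^ 2 ≤ (1 - 4 * a ^ 2) * (121 / 80) := by
        nlinarith [sq_nonneg a]
      have n8 := mul_le_mul_of_nonneg_right n7 (by positivity : 0 ≤ t ^ 4)
      have n9 : (1 - 4 * a ^ 2) * ((2 * a * ‖u‖ + (1 - 3 * a ^ 2 / 4) * t ^ 2) ^ 2 - ‖u‖ ^ 2)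
          ≤ (1 - 4 * a ^ 2) * (121 / 80 * t ^ 4) := by linarith
      have := le_of_mul_le_mul_left n9 hp
      linarith
    set s := t ^ 2 with hs
    have s0 : 0 ≤ s := by positivity
    have s1 : s ≤ 1 := by nlinarith
    have t4 : t ^ 4 = s ^ 2 := by rw [hs]; ring
    have b1 : 1 + (3 * a / 2 * t) ^ 2 - s ≤ 1 - 3 / 4 * s := by
      nlinarith [mul_nonneg (sub_nonneg.2 a2) s0]
    have b2 : 1 + (19 * a / 6 * t) ^ 2 - s + ‖y‖ ^ 2 - ‖u‖ ^ 2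
        ≤ 1 + 37 / 324 * s + 121 / 80 * s ^ 2 := by
      nlinarith [mul_nonneg (sub_nonneg.2 a2) s0]
    have b3 : (1 + (19 * a / 6 * t) ^ 2 - s + ‖y‖ ^ 2 - ‖u‖ ^ 2) / (1 + s)
        ≤ 2 - 2 / 45 * s ^ 2 - (1 + s) * (1 - 3 / 4 * s) := by
      rw [div_le_iff₀ hmu]
      nlinarith [mul_nonneg s0 (sub_nonneg.2 s1), mul_nonneg s0 (mul_nonneg s0 s0),
        mul_nonneg s0 (sq_nonneg (s - 1 / 2))]
    have b4 := mul_le_mul_of_nonneg_left b1 hmu.le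
    have b5 := mul_le_mul_of_nonneg_right hc2 (sq_nonneg s)
    rw [t4] at n1
    linarith

theorem coeff_bound (h0 : 0 < a) (h1 : a ≤ 1 / 3) (hw : Contr w) {h F : ℂ⟦X⟧}
    (hh0 : coeff 0 h = 0)
    (hode : (1 - w ^ 2) * d⁄dX ℂ h = 2 * C (a : ℂ) * (1 + h) * d⁄dX ℂ w)
    (hF0 : coeff 0 F = 1) (hF : X * d⁄dX ℂ F = h * F) {N : ℕ} (hN : 1 ≤ N) :
    ‖coeff N F‖ ≤ 2 * a / N := by
  have hK := KK_ode a hw.1
  have e : h = 2 * C (a : ℂ) * KK a w := by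
    have := ode_unique hw.1 (c := 2 * C (a : ℂ) * d⁄dX ℂ w) (D := h - 2 * C (a : ℂ) * KK a w)
      (by rw [map_sub, hh0, mul_comm, coeff_zero_mul_left (coeff_zero_KK a hw.1), sub_zero])
      (by
        have h2 : (2 : ℂ⟦X⟧) = C (2 : ℂ) := rfl
        have : d⁄dX ℂ (2 * C (a : ℂ) * KK a w) = 2 * C (a : ℂ) * d⁄dX ℂ (KK a w) := by
          rw [h2, ← map_mul, Derivation.leibniz, derivative_C]
          simp
        rw [map_sub, this]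
        linear_combination hode - 2 * C (a : ℂ) * hK)
    exact sub_eq_zero.1 this
  rw [e] at hF
  have hV : ‖coeff N (KK a w * F)‖ ≤ 1 := by
    by_cases h5 : 5 ≤ N
    · exact large h0 h1 hw hF0 hF h5
    · exact small h0 h1 hw hF0 hF hN (by omega)
  have h' : X * d⁄dX ℂ F = C ((2 * a : ℝ) : ℂ) * (KK a w * F) := by
    have : (C ((2 * a : ℝ) : ℂ) : ℂ⟦X⟧) = 2 * C (a : ℂ) := by
      push_cast
      rw [map_mul]
      rfl
    rw [this, hF]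
    ring
  have e1 := congrArg (fun p => ‖coeff N p‖) h'
  simp only [coeff_X_mul_deriv, coeff_C_mul] at e1
  rw [norm_real_mul (by positivity), norm_mul, Complex.norm_natCast] at e1
  have hN' : (0 : ℝ) < N := by exact_mod_cast hN
  rw [le_div_iff₀ hN']
  nlinarith

end Pool.Agent.P.MP_bdc337_an
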