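import Pool.Agent.P.MP_bdc337_an.Contr

set_option autoImplicit false

open Finset PowerSeries Metric Filter Topology

namespace Pool.Agent.P.MP_bdc337_an

/-- Taylor series at the origin -/
noncomputable def tay (f : ℂ → ℂ) : ℂ⟦X⟧ :=
  PowerSeries.mk fun n => iteratedDeriv n f 0 / (n.factorial : ℂ)

variable {f g : ℂ → ℂ}

lemma coeff_tay (f : ℂ → ℂ) (n : ℕ) : coeff n (tay f) = iteratedDeriv n f 0 / (n.factorial : ℂ) := by
  rw [tay, coeff_mk]

lemma coeff_zero_tay (f : ℂ → ℂ) : coeff 0 (tay f) = f 0 := by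
  simp [coeff_tay]

lemma tay_congr (h : f =ᶠ[𝓝 0] g) : tay f = tay g := by
  ext n
  rw [coeff_tay, coeff_tay, h.iteratedDeriv_eq n]

lemma tay_add (hf : AnalyticAt ℂ f 0) (hg : AnalyticAt ℂ g 0) :
    tay (fun z => f z + g z) = tay f + tay g := by
  ext n
  rw [map_add, coeff_tay, coeff_tay, coeff_tay,
    iteratedDeriv_fun_add hf.contDiffAt hg.contDiffAt, add_div]

lemma tay_sub (hf : AnalyticAt ℂ f 0) (hg : AnalyticAt ℂ g 0) :
    tay (fun z => f z - g z) = tay f - tay g := by
  ext n
  rw [map_sub, coeff_tay, coeff_tay, coeff_tay,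
    iteratedDeriv_fun_sub hf.contDiffAt hg.contDiffAt, sub_div]

lemma tay_mul (hf : AnalyticAt ℂ f 0) (hg : AnalyticAt ℂ g 0) :
    tay (fun z => f z * g z) = tay f * tay g := by
  ext n
  rw [coeff_tay, iteratedDeriv_fun_mul hf.contDiffAt hg.contDiffAt, coeff_mul,
    Finset.Nat.sum_antidiagonal_eq_sum_range_succ_mk, Finset.sum_div]
  apply Finset.sum_congr rfl
  intro i hi
  have hi' : i ≤ n := Nat.lt_succ_iff.1 (Finset.mem_range.1 hi)
  rw [coeff_tay, coeff_tay]
  have h := Nat.choose_mul_factorial_mul_factorial hi'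
  have h1 : ((n.factorial : ℕ) : ℂ) = n.choose i * i.factorial * (n - i).factorial := by
    exact_mod_cast h.symm
  have h2 : ((n.choose i : ℕ) : ℂ) ≠ 0 := by exact_mod_cast (Nat.choose_pos hi').ne'
  have h3 : ((i.factorial : ℕ) : ℂ) ≠ 0 := by exact_mod_cast i.factorial_ne_zero
  have h4 : (((n - i).factorial : ℕ) : ℂ) ≠ 0 := by exact_mod_cast (n - i).factorial_ne_zero
  rw [h1]
  field_simp

lemma tay_deriv (f : ℂ → ℂ) : tay (deriv f) = d⁄dX ℂ (tay f) := by
  ext n
  rw [coeff_derivative, coeff_tay, coeff_tay, iteratedDeriv_succ', Nat.factorial_succ]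
  have h3 : ((n.factorial : ℕ) : ℂ) ≠ 0 := by exact_mod_cast n.factorial_ne_zero
  have h4 : ((n : ℂ) + 1) ≠ 0 := by exact_mod_cast Nat.succ_ne_zero n
  push_cast
  field_simp

lemma tay_const (c : ℂ) : tay (fun _ => c) = C c := by
  ext n
  rw [coeff_tay, iteratedDeriv_const, coeff_C]
  split_ifs with h
  · simp [h]
  · simp

lemma tay_pow (m : ℕ) : tay (fun z => z ^ m) = X ^ m := by
  ext n
  rw [coeff_tay, iteratedDeriv_fun_pow_zero, coeff_X_pow]
  split_ifs with h
  · have h3 : ((m.factorial : ℕ) : ℂ) ≠ 0 := by exact_mod_cast m.factorial_ne_zero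
    rw [h, div_self h3]
  · simp

lemma tay_id : tay (fun z => z) = X := by
  have := tay_pow 1
  simpa using this

lemma tay_const_mul (c : ℂ) (hf : AnalyticAt ℂ f 0) : tay (fun z => c * f z) = C c * tay f := by
  rw [tay_mul analyticAt_const hf, tay_const]

lemma tay_poly (c : ℕ → ℂ) (N : ℕ) :
    tay (fun z => ∑ j ∈ range N, c j * z ^ j) = PowerSeries.mk fun j => if j < N then c j else 0 := by
  induction N with
  | zero =>
    simp only [Finset.range_zero, Finset.sum_empty]
    rw [tay_const]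
    ext n
    simp
  | succ N ih =>
    simp only [Finset.sum_range_succ]
    rw [tay_add (by fun_prop) (by fun_prop), ih, tay_const_mul _ (by fun_prop), tay_pow]
    ext n
    rw [map_add, coeff_mk, coeff_mk, coeff_C_mul, coeff_X_pow]
    by_cases h1 : n < N
    · rw [if_pos h1, if_neg (by omega), if_pos (by omega)]
      simp
    · by_cases h2 : n = N
      · simp [h2]
      · rw [if_neg h1, if_neg h2, if_neg (by omega)]
        simp

lemma cauchy_bound {r : ℝ} (hr : 0 < r) (hg : DifferentiableOn ℂ g (closedBall 0 r)) (N : ℕ) :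
    ‖coeff N (tay g)‖ * r ^ N ≤ Real.circleAverage (fun z => ‖g z‖) 0 r := by
  have h := hg.circleIntegral_one_div_sub_center_pow_smul hr N
  have e : coeff N (tay g) = (2 * Real.pi * Complex.I)⁻¹ *
      ∮ z in C(0, r), (1 / (z - 0) ^ (N + 1)) • g z := by
    rw [h, coeff_tay, smul_eq_mul]
    have := Complex.two_pi_I_ne_zero
    field_simp
  rw [e, norm_mul, Real.circleAverage_def, circleIntegral]
  have hpi : 0 < 2 * Real.pi := by positivity
  have n1 : ‖(2 * Real.pi * Complex.I : ℂ)⁻¹‖ = (2 * Real.pi)⁻¹ := by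
    simp [abs_of_pos Real.pi_pos]
  rw [n1, smul_eq_mul, mul_assoc]
  apply mul_le_mul_of_nonneg_left _ (by positivity)
  have n2 := intervalIntegral.norm_integral_le_integral_norm (μ := MeasureTheory.volume)
    (f := fun θ : ℝ => deriv (circleMap 0 r) θ •
      ((fun z => (1 / (z - 0) ^ (N + 1)) • g z) (circleMap 0 r θ))) hpi.le
  refine (mul_le_mul_of_nonneg_right n2 (by positivity)).trans (le_of_eq ?_)
  rw [← intervalIntegral.integral_mul_const]
  apply intervalIntegral.integral_congr
  intro θ _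
  simp only [deriv_circleMap, smul_eq_mul, norm_mul, norm_circleMap_zero, abs_of_pos hr,
    Complex.norm_I, sub_zero, norm_div, norm_one, norm_pow]
  field_simp
  ring

lemma parseval (c : ℕ → ℂ) (N : ℕ) {r : ℝ} (hr : 0 < r) :
    Real.circleAverage (fun z => ‖∑ j ∈ range N, c j / (r : ℂ) ^ j * z ^ j‖ ^ 2) 0 r
      = ∑ j ∈ range N, ‖c j‖ ^ 2 := by
  rw [Real.circleAverage_eq_circleAverage_zero_one]
  set p : Polynomial ℂ := ∑ j ∈ range N, Polynomial.monomial j (c j) with hp
  have hc : ∀ j, p.coeff j = if j < N then c j else 0 := by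
    intro j
    rw [hp, Polynomial.finsetSum_coeff]
    simp only [Polynomial.coeff_monomial]
    rw [Finset.sum_ite_eq']
    simp
  have h := p.sum_sq_norm_coeff_eq_circleAverage
  have hr' : (r : ℂ) ≠ 0 := by exact_mod_cast hr.ne'
  have e1 : (fun z : ℂ => ‖∑ j ∈ range N, c j / (r : ℂ) ^ j * ((r : ℂ) * z + 0) ^ j‖ ^ 2)
      = fun θ => ‖p.eval θ‖ ^ 2 := by
    funext z
    rw [hp, Polynomial.eval_finsetSum]
    congr 2
    apply Finset.sum_congr rfl
    intro j _
    rw [Polynomial.eval_monomial, add_zero, mul_pow]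
    field_simp
  rw [e1, ← h]
  rw [Finset.sum_subset (s₁ := p.support) (s₂ := range N)]
  · apply Finset.sum_congr rfl
    intro j hj
    rw [hc, if_pos (Finset.mem_range.1 hj)]
  · intro j hj
    rw [Polynomial.mem_support_iff, hc] at hj
    by_contra h'
    exact hj (if_neg (by simpa using h'))
  · intro j _ hj
    rw [Polynomial.notMem_support_iff.1 hj]
    simp

theorem contr_tay {w : ℂ → ℂ} (hw : DifferentiableOn ℂ w (ball 0 1)) (h0 : w 0 = 0)
    (hb : ∀ z ∈ ball (0 : ℂ) 1, ‖w z‖ ≤ 1) : Contr (tay w) := by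
  have c0 : coeff 0 (tay w) = 0 := by rw [coeff_zero_tay, h0]
  refine ⟨c0, fun N a b => ?_⟩
  have han : AnalyticAt ℂ w 0 := hw.analyticAt (ball_mem_nhds 0 one_pos)
  let φ : ℝ → ℝ := fun r => 2 * (‖∑ j ∈ range N, ∑ l ∈ range N,
    coeff (N - j - l) (tay w) * (coeff j a / (r : ℂ) ^ j) * (coeff l b / (r : ℂ) ^ l)‖ * r ^ N)
  have key : ∀ r : ℝ, 0 < r → r < 1 → φ r ≤ nsq N a + nsq N b := by
    intro r hr hr1
    let P : ℂ → ℂ := fun z => ∑ j ∈ range N, coeff j a / (r : ℂ) ^ j * z ^ j
    let Q : ℂ → ℂ := fun z => ∑ j ∈ range N, coeff j b / (r : ℂ) ^ j * z ^ j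
    have hP : Differentiable ℂ P := by fun_prop
    have hQ : Differentiable ℂ Q := by fun_prop
    have hsub : closedBall (0 : ℂ) r ⊆ ball 0 1 := closedBall_subset_ball hr1
    have hg : DifferentiableOn ℂ (fun z => w z * P z * Q z) (closedBall 0 r) :=
      ((hw.mono hsub).mul hP.differentiableOn).mul hQ.differentiableOn
    have h1 := cauchy_bound hr hg N
    rw [tay_mul (han.fun_mul (hP.analyticAt 0)) (hQ.analyticAt 0), tay_mul han (hP.analyticAt 0),
      coeff_mul_mul_eq_beta c0] at h1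
    have e1 : beta (tay w) N N N (tay P) (tay Q) = ∑ j ∈ range N, ∑ l ∈ range N,
        coeff (N - j - l) (tay w) * (coeff j a / (r : ℂ) ^ j) * (coeff l b / (r : ℂ) ^ l) := by
      unfold beta
      apply Finset.sum_congr rfl
      intro j hj
      apply Finset.sum_congr rfl
      intro l hl
      simp only [P, Q]
      rw [tay_poly, tay_poly, coeff_mk, coeff_mk, if_pos (Finset.mem_range.1 hj),
        if_pos (Finset.mem_range.1 hl)]
    rw [e1] at h1
    have hsph : sphere (0 : ℂ) |r| ⊆ closedBall 0 r := by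
      rw [abs_of_pos hr]
      exact sphere_subset_closedBall
    have i1 : CircleIntegrable (fun z => ‖w z * P z * Q z‖) 0 r :=
      (hg.continuousOn.norm.mono hsph).circleIntegrable'
    have i2 : CircleIntegrable (fun z => ‖P z‖ ^ 2) 0 r :=
      ((hP.continuous.norm.pow 2).continuousOn).circleIntegrable'
    have i3 : CircleIntegrable (fun z => ‖Q z‖ ^ 2) 0 r :=
      ((hQ.continuous.norm.pow 2).continuousOn).circleIntegrable'
    have h2 : Real.circleAverage (fun z => ‖w z * P z * Q z‖) 0 r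
        ≤ Real.circleAverage (fun z => (1 / 2 : ℝ) • (‖P z‖ ^ 2 + ‖Q z‖ ^ 2)) 0 r := by
      apply Real.circleAverage_mono i1
      · exact ((((hP.continuous.norm.pow 2).add (hQ.continuous.norm.pow 2)).const_smul
          (1 / 2 : ℝ)).continuousOn).circleIntegrable'
      · intro z hz
        have := hb z (hsub (hsph hz))
        simp only [norm_mul, smul_eq_mul]
        nlinarith [mul_nonneg (norm_nonneg (P z)) (norm_nonneg (Q z)),
          sq_nonneg (‖P z‖ - ‖Q z‖), norm_nonneg (w z)]
    rw [Real.circleAverage_fun_smul, Real.circleAverage_fun_add i2 i3] at h2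
    simp only [P, Q] at h2
    rw [parseval _ _ hr, parseval _ _ hr, smul_eq_mul] at h2
    simp only [φ, nsq]
    linarith
  have hc : ContinuousAt φ 1 := by
    simp only [φ]
    refine continuousAt_const.mul (ContinuousAt.mul (ContinuousAt.norm ?_) (by fun_prop))
    refine tendsto_finsetSum _ (fun j _ => tendsto_finsetSum _ (fun l _ => ?_))
    refine ContinuousAt.tendsto (ContinuousAt.mul (ContinuousAt.mul continuousAt_const ?_) ?_)
    · exact ContinuousAt.div continuousAt_const (by fun_prop) (by simp)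
    · exact ContinuousAt.div continuousAt_const (by fun_prop) (by simp)
  have hlim : φ 1 ≤ nsq N a + nsq N b := by
    have t : Tendsto φ (𝓝[<] 1) (𝓝 (φ 1)) := hc.tendsto.mono_left nhdsWithin_le_nhds
    apply le_of_tendsto t
    filter_upwards [Ioo_mem_nhdsLT (zero_lt_one' ℝ)] with r hr
    exact key r hr.1 hr.2
  rw [coeff_mul_mul_eq_beta c0]
  simpa [φ, beta] using hlim

end Pool.Agent.P.MP_bdc337_an
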