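import Pool.Agent.P.MP_bdc337_an.Taylor
import Pool.Agent.P.MP_bdc337_an.Small

set_option autoImplicit false

open Finset PowerSeries Metric Filter Topology

namespace Pool.Agent.P.MP_bdc337_an

theorem upper {a : ℝ} (h0 : 0 < a) (h1 : a ≤ 1 / 3) {f : ℂ → ℂ}
    (hd : DifferentiableOn ℂ f (ball 0 1)) (hi : Set.InjOn f (ball 0 1)) (hf0 : f 0 = 0)
    (hf1 : deriv f 0 = 1)
    (harg : ∀ z ∈ ball (0 : ℂ) 1, z ≠ 0 → |Complex.arg (z * deriv f z / f z)| < a * Real.pi / 2)
    {N : ℕ} (hN : 1 ≤ N) : ‖coeff (N + 1) (tay f)‖ ≤ 2 * a / N := by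
  have hnb : ball (0 : ℂ) 1 ∈ 𝓝 (0 : ℂ) := ball_mem_nhds 0 one_pos
  have hz0 : (0 : ℂ) ∈ ball (0 : ℂ) 1 := mem_ball_self one_pos
  set F := dslope f 0 with hFdef
  have hFd : DifferentiableOn ℂ F (ball 0 1) := (Complex.differentiableOn_dslope hnb).2 hd
  have hfF : ∀ z, f z = z * F z := by
    intro z
    have := sub_smul_dslope f 0 z
    rw [hf0, sub_zero, sub_zero, smul_eq_mul] at this
    exact this.symm
  have hF0 : F 0 = 1 := by rw [hFdef, dslope_same, hf1]
  have hFne : ∀ z ∈ ball (0 : ℂ) 1, F z ≠ 0 := by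
    intro z hz hF
    by_cases h : z = 0
    · rw [h, hF0] at hF
      exact one_ne_zero hF
    · exact h (hi hz hz0 (by rw [hfF z, hF, mul_zero, hf0]))
  have hd' : DifferentiableOn ℂ (deriv f) (ball 0 1) := hd.deriv isOpen_ball
  set P : ℂ → ℂ := fun z => deriv f z / F z with hPdef
  have hPd : DifferentiableOn ℂ P (ball 0 1) := hd'.div hFd hFne
  have hP0 : P 0 = 1 := by simp only [hPdef, hf1, hF0, div_one]
  have hpi := Real.pi_pos
  have hParg : ∀ z ∈ ball (0 : ℂ) 1, |Complex.arg (P z)| < a * Real.pi / 2 := by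
    intro z hz
    by_cases h : z = 0
    · rw [h, hP0, Complex.arg_one, abs_zero]
      positivity
    · have := harg z hz h
      rwa [hfF z, mul_div_mul_left _ _ h] at this
  have hPre : ∀ z ∈ ball (0 : ℂ) 1, 0 < (P z).re ∨ P z = 0 := by
    intro z hz
    rw [← Complex.abs_arg_lt_pi_div_two_iff]
    have := hParg z hz
    nlinarith
  have hPne : ∀ z ∈ ball (0 : ℂ) 1, P z ≠ 0 := by
    intro z hz hP
    have hE : DifferentiableOn ℂ (fun z => Complex.exp (-P z)) (ball 0 1) := hPd.neg.cexp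
    have hmax : IsMaxOn (norm ∘ fun z => Complex.exp (-P z)) (ball 0 1) z := by
      intro y hy
      simp only [Set.mem_ofPred_eq, Function.comp, hP, neg_zero, Complex.exp_zero, norm_one,
        Complex.norm_exp, Complex.neg_re]
      rw [Real.exp_le_one_iff]
      rcases hPre y hy with h | h
      · linarith
      · rw [h]; simp
    have := Complex.eqOn_of_isPreconnected_of_isMaxOn_norm (convex_ball (0 : ℂ) 1).isPreconnected
      isOpen_ball hE hz hmax hz0
    simp only [Function.const, hP, hP0, neg_zero, Complex.exp_zero] at this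
    have h2 := congrArg norm this
    rw [Complex.norm_exp, norm_one] at h2
    simp at h2
  have hPs : ∀ z ∈ ball (0 : ℂ) 1, P z ∈ Complex.slitPlane := by
    intro z hz
    exact Or.inl ((hPre z hz).resolve_right (hPne z hz))
  have ha : (a : ℂ) ≠ 0 := by exact_mod_cast h0.ne'
  set E : ℂ → ℂ := fun z => Complex.exp (Complex.log (P z) / a) with hEdef
  have hEre : ∀ z ∈ ball (0 : ℂ) 1, 0 < (E z).re := by
    intro z hz
    simp only [hEdef, Complex.exp_re, Complex.div_ofReal_im, Complex.log_im]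
    apply mul_pos (Real.exp_pos _)
    have := abs_lt.1 (hParg z hz)
    apply Real.cos_pos_of_mem_Ioo
    constructor
    · rw [lt_div_iff₀ h0]
      linarith [this.1]
    · rw [div_lt_iff₀ h0]
      linarith [this.2]
  have hE1 : ∀ z ∈ ball (0 : ℂ) 1, E z + 1 ≠ 0 := by
    intro z hz h
    have h2 := congrArg Complex.re h
    have := hEre z hz
    simp at h2
    linarith
  have hPder : ∀ z ∈ ball (0 : ℂ) 1, HasDerivAt P (deriv P z) z := fun z hz =>
    (hPd.differentiableAt (isOpen_ball.mem_nhds hz)).hasDerivAt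
  have hEder : ∀ z ∈ ball (0 : ℂ) 1, HasDerivAt E (E z * (deriv P z / P z / a)) z := fun z hz =>
    (((hPder z hz).clog (hPs z hz)).div_const (a : ℂ)).cexp
  set w : ℂ → ℂ := fun z => (E z - 1) / (E z + 1) with hwdef
  have hwder : ∀ z ∈ ball (0 : ℂ) 1,
      HasDerivAt w (2 * (E z * (deriv P z / P z / a)) / (E z + 1) ^ 2) z := by
    intro z hz
    have := ((hEder z hz).sub_const 1).fun_div ((hEder z hz).add_const 1) (hE1 z hz)
    refine this.congr_deriv ?_
    ring
  have hwd : DifferentiableOn ℂ w (ball 0 1) := fun z hz =>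
    (hwder z hz).differentiableAt.differentiableWithinAt
  have hw0 : w 0 = 0 := by simp [hwdef, hEdef, hP0]
  have hwb : ∀ z ∈ ball (0 : ℂ) 1, ‖w z‖ ≤ 1 := by
    intro z hz
    simp only [hwdef, norm_div]
    rw [div_le_one (norm_pos_iff.2 (hE1 z hz))]
    apply abs_le_of_sq_le_sq' _ (norm_nonneg _) |>.2
    rw [Complex.sq_norm, Complex.sq_norm, Complex.normSq_apply, Complex.normSq_apply]
    have := hEre z hz
    simp
    nlinarith
  have hcon := contr_tay hwd hw0 hwb
  have aw : AnalyticAt ℂ w 0 := hwd.analyticAt hnb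
  have aP : AnalyticAt ℂ P 0 := hPd.analyticAt hnb
  have aF : AnalyticAt ℂ F 0 := hFd.analyticAt hnb
  have ode : (fun z => (1 - w z * w z) * deriv P z) =ᶠ[𝓝 0]
      fun z => (2 * a : ℂ) * (P z * deriv w z) := by
    filter_upwards [hnb] with z hz
    rw [(hwder z hz).deriv]
    have e1 := hE1 z hz
    have e2 := hPne z hz
    simp only [hwdef]
    field_simp
    ring
  have t1 := tay_congr ode
  rw [tay_mul (analyticAt_const.fun_sub (aw.fun_mul aw)) aP.deriv,
    tay_sub analyticAt_const (aw.fun_mul aw), tay_mul aw aw, tay_const,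
    tay_const_mul _ (aP.fun_mul aw.deriv), tay_mul aP aw.deriv, tay_deriv, tay_deriv] at t1
  have t2 : tay f = X * tay F := by
    have : f = fun z => z * F z := funext hfF
    conv_lhs => rw [this]
    rw [tay_mul (f := fun z => z) analyticAt_id aF, tay_id]
  have t3 : d⁄dX ℂ (tay f) = tay P * tay F := by
    rw [← tay_deriv, ← tay_mul aP aF]
    apply tay_congr
    filter_upwards [hnb] with z hz
    simp only [hPdef]
    rw [div_mul_cancel₀ _ (hFne z hz)]
  rw [t2, coeff_succ_X_mul]
  apply coeff_bound h0 h1 hcon (h := tay P - 1) _ _ _ _ hN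
  · rw [map_sub, coeff_zero_tay, hP0]
    simp
  · rw [map_sub, derivative_one, sub_zero]
    have c2 : (C (2 * a : ℂ) : ℂ⟦X⟧) = 2 * C (a : ℂ) := by
      rw [map_mul]
      rfl
    rw [c2, map_one] at t1
    linear_combination t1
  · rw [coeff_zero_tay, hF0]
  · rw [t2, Derivation.leibniz, derivative_X] at t3
    simp only [smul_eq_mul] at t3
    linear_combination t3

end Pool.Agent.P.MP_bdc337_an
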